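import Pool.Agent.H66.Rec.An

/-!
# Attractors and repellers of Anosov diffeomorphisms, and fibres with heteroclinic points
-/

set_option autoImplicit false
set_option linter.unusedSectionVars false

open scoped Manifold ContDiff Topology Bundle
open Set Filter Bundle

namespace Pool.Agent.H66.Fib

open Pool.Agent.W5h13.LS Pool.Agent.H789R2.AN Pool.Agent.H721R2 Pool.Agent.TH289
open Pool.Agent.H66.Rec

section top

/-- trapping regions in normal spaces -/
theorem exists_trap {Y : Type*} [TopologicalSpace Y] [NormalSpace Y] {g : Y → Y}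
    (hg : Continuous g) {V T : Set Y} (hV : IsOpen V) (hT : IsOpen T) (hVT : closure V ⊆ T)
    {m : ℕ} (hm : ∀ y ∈ T, ∀ n ≥ m, g^[n] y ∈ V) :
    ∃ U, IsOpen U ∧ closure (g '' U) ⊆ U ∧ U ⊆ T ∧ ∀ y, (∀ k, g^[k] y ∈ V) → y ∈ U := by
  have hint : ∀ S : {S : Set Y // IsOpen S ∧ closure S ⊆ T},
      ∃ S' : {S : Set Y // IsOpen S ∧ closure S ⊆ T}, closure S.1 ⊆ S'.1 := by
    rintro ⟨S, hS, hST⟩
    obtain ⟨S', h1, h2, h3⟩ := normal_exists_closure_subset isClosed_closure hT hST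
    exact ⟨⟨S', h1, h3⟩, h2⟩
  choose F hF using hint
  let S : ℕ → {S : Set Y // IsOpen S ∧ closure S ⊆ T} := fun n =>
    Nat.rec ⟨V, hV, hVT⟩ (fun _ s => F s) n
  have hSs : ∀ n, closure (S n).1 ⊆ (S (n + 1)).1 := fun n => hF (S n)
  have hVS : ∀ n, V ⊆ (S n).1 := by
    intro n
    induction n with
    | zero => exact subset_rfl
    | succ n ih => exact ih.trans (subset_closure.trans (hSs n))
  set R : Set Y := {x | ∀ k < m + 1, g^[k] x ∈ (S (m + 1 - k)).1} with hR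
  have hRo : IsOpen R := by
    have : R = ⋂ k ∈ Finset.range (m + 1), g^[k] ⁻¹' (S (m + 1 - k)).1 := by
      ext x
      simp [hR, Finset.mem_range]
    rw [this]
    exact isOpen_biInter_finset fun k _ => (S _).2.1.preimage (hg.iterate k)
  have hRT : R ⊆ T := by
    intro x hx
    have h1 : x ∈ (S (m + 1)).1 := hx 0 (Nat.succ_pos m)
    exact (S (m + 1)).2.2 (subset_closure h1)
  refine ⟨R, hRo, ?_, hRT, fun y hy k _ => hVS _ (hy k)⟩
  intro x hx k hk
  have h1 : MapsTo g^[k] (g '' R) (S (m - k)).1 := by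
    rintro _ ⟨z, hz, rfl⟩
    rw [← Function.iterate_succ_apply]
    rcases Nat.lt_or_ge (k + 1) (m + 1) with h2 | h2
    · have h3 := hz (k + 1) h2
      have h4 : m + 1 - (k + 1) = m - k := by omega
      rw [h4] at h3
      exact h3
    · exact hVS _ (hm z (hRT hz) (k + 1) (by omega))
  have h2 := h1.closure (hg.iterate k) hx
  have h3 : m - k + 1 = m + 1 - k := by omega
  exact h3 ▸ hSs (m - k) h2

/-- a compact set of points attracted by `A` is uniformly attracted -/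
theorem unif_attract {M : Type*} [TopologicalSpace M] {f : M → M} (hf : Continuous f)
    {A O C : Set M} (hO : Attracts f A O) (hC : IsCompact C)
    (hCA : ∀ x ∈ C, ∃ n : ℕ, f^[n] x ∈ O) {V : Set M} (hV : IsOpen V) (hAV : A ⊆ V) :
    ∃ m : ℕ, ∀ x ∈ C, ∀ n ≥ m, f^[n] x ∈ V := by
  obtain ⟨m₀, hm₀⟩ := hO.2.2 V hV hAV
  have hcov : C ⊆ ⋃ n : ℕ, f^[n] ⁻¹' O := by
    intro x hx
    obtain ⟨n, hn⟩ := hCA x hx
    exact mem_iUnion.mpr ⟨n, hn⟩
  obtain ⟨s, hs⟩ := hC.elim_finite_subcover (fun n : ℕ => f^[n] ⁻¹' O)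
    (fun n => hO.1.preimage (hf.iterate n)) hcov
  refine ⟨s.sup id + m₀, fun x hx n hn => ?_⟩
  obtain ⟨i, hi, hxi⟩ := mem_iUnion₂.mp (hs hx)
  have h1 : i ≤ s.sup id := Finset.le_sup (f := id) hi
  have h2 : n - i ≥ m₀ := by omega
  have h3 := hm₀ (n - i) h2 _ hxi
  rw [← Function.iterate_add_apply, Nat.sub_add_cancel (by omega)] at h3
  exact h3

/-- maps without proper trapping regions: no attractor-repeller pairs -/
theorem no_pair {Y : Type*} [TopologicalSpace Y] [T2Space Y] [CompactSpace Y] {g : Y → Y}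
    (hg : Continuous g) {M : Type*} [TopologicalSpace M] [CompactSpace M] {f : M → M}
    (hf : Continuous f) {h : M → Y} (hh : Continuous h) (hs : Function.Surjective h)
    (hfg : ∀ x, h (f x) = g (h x)) {A R O : Set M} (hAc : IsClosed A) (hRc : IsClosed R)
    (hAn : A.Nonempty) (hRn : R.Nonempty) (hAf : ∀ x ∈ A, f x ∈ A) (hO : Attracts f A O)
    (hR : ∀ x ∉ R, ∃ n : ℕ, f^[n] x ∈ O) (hfib : ∀ x ∈ A, ∀ y ∈ R, h x ≠ h y)
    (htr : ∀ U : Set Y, IsOpen U → U.Nonempty → closure (g '' U) ⊆ U → U = univ) : False := by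
  have hK : IsClosed (h '' A) := (hAc.isCompact.image hh).isClosed
  have hK' : IsClosed (h '' R) := (hRc.isCompact.image hh).isClosed
  have hsub : h '' A ⊆ (h '' R)ᶜ := by
    rintro _ ⟨x, hx, rfl⟩ ⟨y, hy, hyx⟩
    exact hfib x hx y hy hyx.symm
  obtain ⟨T, hT, hKT, hTK⟩ := normal_exists_closure_subset hK hK'.isOpen_compl hsub
  obtain ⟨V, hV, hKV, hVT⟩ := normal_exists_closure_subset hK hT hKT
  have hC : IsCompact (h ⁻¹' closure T) := (isClosed_closure.preimage hh).isCompact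
  obtain ⟨m, hm⟩ := unif_attract hf hO hC (fun x hx => hR x fun hxR => hTK hx ⟨x, hxR, rfl⟩)
    (hV.preimage hh) (fun x hx => hKV ⟨x, hx, rfl⟩)
  have hn : ∀ (n : ℕ) (x : M), h (f^[n] x) = g^[n] (h x) := by
    intro n
    induction n with
    | zero => intro x; rfl
    | succ n ih => intro x; rw [Function.iterate_succ_apply', hfg, ih, Function.iterate_succ_apply']
  obtain ⟨U, hU, hUc, hUT, hUV⟩ := exists_trap hg hV hT hVT (m := m) (fun y hy n hn' => by
    obtain ⟨x, rfl⟩ := hs y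
    rw [← hn]
    exact hm x (subset_closure hy) n hn')
  have hAfn : ∀ n : ℕ, ∀ x ∈ A, f^[n] x ∈ A := by
    intro n
    induction n with
    | zero => exact fun x hx => hx
    | succ n ih =>
      intro x hx
      rw [Function.iterate_succ_apply']
      exact hAf _ (ih x hx)
  obtain ⟨a, ha⟩ := hAn
  obtain ⟨r, hr⟩ := hRn
  have h1 := htr U hU ⟨h a, hUV _ fun k => by
    rw [← hn]
    exact hKV ⟨_, hAfn k a ha, rfl⟩⟩ hUc
  have h2 : h r ∈ U := h1 ▸ mem_univ _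
  exact hTK (subset_closure (hUT h2)) ⟨r, hr, rfl⟩

end top

section metric

variable {X : Type*} [MetricSpace X] [CompactSpace X]

/-- the repeller dual to an attractor -/
theorem repeller {f : X ≃ₜ X} {N : ℕ} (hN : 1 ≤ N) {c : ℝ} (h : LP (iterHomeo f N) c)
    {A : Set X} (hA : IsAtt (iterHomeo f N) A) (hf : ∀ x, f x ∈ A ↔ x ∈ A) :
    ∃ R : Set X, IsClosed R ∧ Disjoint A R ∧ (∀ x ∈ R, ∀ y, Asym f x y → y ∈ R) ∧
      ∀ x ∉ R, ∀ V : Set X, IsOpen V → A ⊆ V → ∃ n : ℕ, f^[n] x ∈ V := by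
  refine ⟨(Bas (iterHomeo f N) A)ᶜ, (isOpen_bas h hA).isClosed_compl,
    disjoint_compl_right_iff_subset.mpr (subset_bas _ A), ?_, ?_⟩
  · rintro x hx y hxy ⟨z, hz, hyz⟩
    rw [asym_iff] at hxy
    rw [← WS_iter_iff f hN] at hxy
    exact hx ⟨z, hz, hxy.trans hyz⟩
  · intro x hx V hV hAV
    rw [mem_compl_iff, not_not] at hx
    obtain ⟨z, hz, hxz⟩ := hx
    rw [WS_iter_iff f hN] at hxz
    obtain ⟨ε, hε, hεV⟩ := hA.closed.isCompact.exists_thickening_subset_open hV hAV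
    obtain ⟨m, hm⟩ := hxz.eventually_lt hε
    exact ⟨m, hεV (Metric.mem_thickening_iff.mpr ⟨_, (inv_iter hf m z).mpr hz, hm m le_rfl⟩)⟩

end metric

variable {E : Type*} [NormedAddCommGroup E] [NormedSpace ℝ E] [FiniteDimensional ℝ E]
  {M : Type*} [TopologicalSpace M] [T2Space M] [CompactSpace M] [ConnectedSpace M]
  [ChartedSpace E M] [IsManifold 𝓘(ℝ, E) ∞ M]

/-- `f` is transitive if its attractors have no dual repellers. -/
theorem core2 (f : Diffeomorph 𝓘(ℝ, E) 𝓘(ℝ, E) M M 1)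
    (Es Eu : ∀ x : M, Submodule ℝ (TangentSpace 𝓘(ℝ, E) x)) (hA : IsAnosov f Es Eu)
    (H : ∀ A R O : Set M, IsClosed A → A.Nonempty → IsClosed R → Disjoint A R →
      (∀ x, f x ∈ A ↔ x ∈ A) → (∀ x ∈ A, ∀ y, Asym f.symm x y → y ∈ A) →
      (∀ x ∈ R, ∀ y, Asym f x y → y ∈ R) → Attracts f A O → (∀ x ∉ R, ∃ n : ℕ, f^[n] x ∈ O) →
      ¬ R.Nonempty) :
    TopTransitive f := by
  have hm := (man_family (ι := Unit) (fun _ => f) (fun _ => Es) (fun _ => Eu) (fun _ => hA)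
    (fun _ _ => Relation.EqvGen.refl _)).2.2
  have h1 : (∃ (Γ : Set (M → M)) (Φ : Set (M ≃ₜ M)),
        (∀ γ ∈ Γ, ∃ _ _ : Unit, LeafMap f.symm f.symm γ) ∧
        (∀ φ ∈ Φ, ∃ _ : Unit, Contracts f.toHomeomorph φ) ∧
        ∀ A : Set M, A.Nonempty → (∀ _ : Unit, ClosedLeafUnion f.symm A) → (∀ γ ∈ Γ, MapsTo γ A A) →
          (∀ φ ∈ Φ, ∀ x ∈ A, Leaf φ x ⊆ A) →
          (interior A).Nonempty ∨ ∃ x ∈ A, ⨆ _ : Unit, Eu x = ⊤) → TopTransitive f := by
    intro h
    have h2 := hm.out 6 0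
    exact (h2.mp h) ()
  apply h1
  refine ⟨{γ | LeafMap f.symm f.symm γ}, ∅, fun γ hγ => ⟨(), (), hγ⟩, by simp, ?_⟩
  intro A hAn hAc hAγ _
  left
  have hinv : ∀ x, f x ∈ A ↔ x ∈ A := by
    intro x
    constructor
    · intro hx
      have h2 : f.symm (f x) ∈ A := hAγ _ (leafMap_symm f.toHomeomorph) hx
      have h3 : f.symm (f x) = x := f.toHomeomorph.symm_apply_apply x
      rwa [h3] at h2
    · intro hx
      exact hAγ _ (leafMap_self f.toHomeomorph) hx
  have hatt : ∃ O R, Attracts f A O ∧ IsClosed R ∧ Disjoint A R ∧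
      (∀ x ∈ R, ∀ y, Asym f x y → y ∈ R) ∧
      ∀ x ∉ R, ∀ V : Set M, IsOpen V → A ⊆ V → ∃ n : ℕ, f^[n] x ∈ V := by
    obtain ⟨m, e, he, hemb, hinj⟩ := exists_embedding_euclidean_of_compact (I := 𝓘(ℝ, E)) (M := M)
    let _ : MetricSpace M := hemb.isEmbedding.comapMetricSpace e
    have hiso : ∀ x y : M, dist x y = ‖e x - e y‖ := fun x y => dist_eq_norm (e x) (e y)
    have he1 : ContMDiff 𝓘(ℝ, E) (𝓡 m) 1 e := he.of_le (by simp)
    obtain ⟨C, a, b, Ls, Lu, hE⟩ := eanosov_of_isAnosov e he1 hinj f Es Eu hA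
    obtain ⟨N, S, c, hG⟩ := exists_good hiso he1 hinj hE
    have h2 := (closedLeafUnion_iff f.toHomeomorph A).mp (hAc ())
    have h3 := hG.att h2.1 hAn h2.2
    have h4 := hG.lp
    rw [hG.g] at h3 h4
    obtain ⟨O, hO⟩ := attracts_of_lp hG.one_le h4 h3 fun x hx => (hinv x).mpr hx
    obtain ⟨R, hR⟩ := repeller hG.one_le h4 h3 hinv
    exact ⟨O, R, hO, hR⟩
  obtain ⟨O, R, hO, hRc, hAR, hRs, hR⟩ := hatt
  have hRn := H A R O (hAc ()).1 hAn hRc hAR hinv (fun x hx y hxy => (hAc ()).2 x hx hxy) hRs hO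
    (fun x hx => hR x hx O hO.1 hO.2.1)
  have hall : ∀ x : M, x ∉ R := fun x hx => hRn ⟨x, hx⟩
  have h5 : A = univ := by
    by_contra hne
    obtain ⟨y, hy⟩ := (ne_univ_iff_exists_notMem A).mp hne
    obtain ⟨m, hm'⟩ := unif_attract f.toHomeomorph.continuous hO isCompact_univ
      (fun x _ => hR x (hall x) O hO.1 hO.2.1) (isOpen_compl_singleton (x := y))
      (fun a ha h => hy (by rw [mem_singleton_iff] at h; exact h ▸ ha))
    obtain ⟨z, hz⟩ := (f.toHomeomorph.surjective.iterate m) y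
    exact hm' z (mem_univ z) m le_rfl hz
  rw [h5, interior_univ]
  exact univ_nonempty

/-- **Fibres with heteroclinic points.** -/
theorem het_trans (f : Diffeomorph 𝓘(ℝ, E) 𝓘(ℝ, E) M M 1)
    (Es Eu : ∀ x : M, Submodule ℝ (TangentSpace 𝓘(ℝ, E) x)) (hA : IsAnosov f Es Eu)
    {Y : Type*} [TopologicalSpace Y] [T2Space Y] {h : M → Y} (hh : Continuous h)
    (hs : Function.Surjective h) {g : Y → Y} (hg : Continuous g) (hfg : ∀ x, h (f x) = g (h x))
    (hfib : ∀ x y, h x = h y → ∃ z, Asym f.symm x z ∧ Asym f y z)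
    (htr : ∀ U : Set Y, IsOpen U → U.Nonempty → closure (g '' U) ⊆ U → U = univ) :
    TopTransitive f := by
  have hcomp : CompactSpace Y := by
    rw [← isCompact_univ_iff, ← hs.range_eq]
    exact isCompact_range hh
  refine core2 f Es Eu hA fun A R O hAc hAn hRc hAR hinv hAs hRs hO hRO hRn => ?_
  refine no_pair hg f.toHomeomorph.continuous hh hs hfg hAc hRc hAn hRn
    (fun x hx => (hinv x).mpr hx) hO hRO (fun x hx y hy hxy => ?_) htr
  obtain ⟨z, hz1, hz2⟩ := hfib x y hxy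
  exact disjoint_left.mp hAR (hAs x hx z hz1) (hRs y hy z hz2)

end Pool.Agent.H66.Fib
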