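import Pool.Agent.H66.Fib.Base
import Pool.Agent.H66.Fib.Het

/-!
# Actions of `ℝ^k` normalised by an Anosov diffeomorphism
-/

set_option autoImplicit false
set_option linter.unusedSectionVars false

open scoped Manifold ContDiff Topology Bundle
open Set Filter Bundle

namespace Pool.Agent.H66.Fib

open Pool.Agent.H721R2 Pool.Agent.H789R2.AN Pool.Agent.TH289 Pool.Agent.W5h13.LS

section act

variable {k : ℕ} {E : Type*} [NormedAddCommGroup E] [NormedSpace ℝ E]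
  {M : Type*} [TopologicalSpace M] [ChartedSpace E M] [IsManifold 𝓘(ℝ, E) 1 M]

/-- a `C¹` action of `ℝ^k` on `M` -/
structure IsAct (E : Type*) [NormedAddCommGroup E] [NormedSpace ℝ E] {M : Type*}
    [TopologicalSpace M] [ChartedSpace E M] {k : ℕ} (R : (Fin k → ℝ) → M → M) : Prop where
  smooth : ContMDiff (𝓘(ℝ, Fin k → ℝ).prod 𝓘(ℝ, E)) 𝓘(ℝ, E) 1
    (fun q : (Fin k → ℝ) × M => R q.1 q.2)
  zero : ∀ x, R 0 x = x
  add : ∀ v w x, R (v + w) x = R v (R w x)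

/-- the infinitesimal action -/
noncomputable def inf (E : Type*) [NormedAddCommGroup E] [NormedSpace ℝ E] {M : Type*}
    [TopologicalSpace M] [ChartedSpace E M] {k : ℕ} (R : (Fin k → ℝ) → M → M) (x : M) :
    (Fin k → ℝ) →L[ℝ] E := mfderiv 𝓘(ℝ, Fin k → ℝ) 𝓘(ℝ, E) (fun v => R v x) 0

theorem IsAct.smooth_orb {R : (Fin k → ℝ) → M → M} (h : IsAct E R) (x : M) :
    ContMDiff 𝓘(ℝ, Fin k → ℝ) 𝓘(ℝ, E) 1 (fun v => R v x) := by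
  have h1 : ContMDiff 𝓘(ℝ, Fin k → ℝ) (𝓘(ℝ, Fin k → ℝ).prod 𝓘(ℝ, E)) 1
      (fun v : Fin k → ℝ => (v, x)) := contMDiff_id.prodMk contMDiff_const
  exact h.smooth.comp h1

theorem IsAct.smooth_act {R : (Fin k → ℝ) → M → M} (h : IsAct E R) (v : Fin k → ℝ) :
    ContMDiff 𝓘(ℝ, E) 𝓘(ℝ, E) 1 (fun x => R v x) := by
  have h1 : ContMDiff 𝓘(ℝ, E) (𝓘(ℝ, Fin k → ℝ).prod 𝓘(ℝ, E)) 1
      (fun x : M => (v, x)) := contMDiff_const.prodMk contMDiff_id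
  exact h.smooth.comp h1

/-- derivative along orbits -/
theorem IsAct.hasFDerivAt {R : (Fin k → ℝ) → M → M} (h : IsAct E R)
    {F : Type*} [NormedAddCommGroup F] [NormedSpace ℝ F] (e : M → F)
    (he : ContMDiff 𝓘(ℝ, E) 𝓘(ℝ, F) 1 e) (x : M) :
    HasFDerivAt (fun v => e (R v x)) ((dm E e x).comp (inf E R x)) 0 := by
  have h1 : HasMFDerivAt 𝓘(ℝ, Fin k → ℝ) 𝓘(ℝ, E) (fun v => R v x) 0
      (mfderiv 𝓘(ℝ, Fin k → ℝ) 𝓘(ℝ, E) (fun v => R v x) 0) :=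
    ((h.smooth_orb x).mdifferentiableAt (by norm_num)).hasMFDerivAt
  have h2 : HasMFDerivAt 𝓘(ℝ, E) 𝓘(ℝ, F) e (R 0 x) (mfderiv 𝓘(ℝ, E) 𝓘(ℝ, F) e (R 0 x)) :=
    (he.mdifferentiableAt (by norm_num)).hasMFDerivAt
  have h3 := h2.comp (0 : Fin k → ℝ) h1
  have h4 := h3.hasFDerivAt
  have h5 : (dm E e x).comp (inf E R x) = (dm E e (R 0 x)).comp (inf E R x) := by
    rw [h.zero]
  rw [h5]
  exact h4

/-- equivariance of the infinitesimal action -/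
theorem IsAct.equi {R : (Fin k → ℝ) → M → M} (h : IsAct E R) {A : Matrix (Fin k) (Fin k) ℝ}
    {f : M → M} (hf : ContMDiff 𝓘(ℝ, E) 𝓘(ℝ, E) 1 f)
    (hfR : ∀ v x, f (R v x) = R (A.mulVec v) (f x)) (x : M) (v : Fin k → ℝ) :
    dg E f x (inf E R x v) = inf E R (f x) (A.mulVec v) := by
  have h1 : HasMFDerivAt 𝓘(ℝ, Fin k → ℝ) 𝓘(ℝ, E) (fun v => R v x) 0
      (mfderiv 𝓘(ℝ, Fin k → ℝ) 𝓘(ℝ, E) (fun v => R v x) 0) :=
    ((h.smooth_orb x).mdifferentiableAt (by norm_num)).hasMFDerivAt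
  have h2 : HasMFDerivAt 𝓘(ℝ, E) 𝓘(ℝ, E) f (R 0 x) (mfderiv 𝓘(ℝ, E) 𝓘(ℝ, E) f (R 0 x)) :=
    (hf.mdifferentiableAt (by norm_num)).hasMFDerivAt
  have h3 := h2.comp (0 : Fin k → ℝ) h1
  have h4 : HasFDerivAt (fun v : Fin k → ℝ => A.mulVec v) (A.mulVecLin.toContinuousLinearMap) 0 :=
    (A.mulVecLin.toContinuousLinearMap).hasFDerivAt
  have h5 : HasMFDerivAt 𝓘(ℝ, Fin k → ℝ) 𝓘(ℝ, Fin k → ℝ) (fun v : Fin k → ℝ => A.mulVec v) 0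
      (A.mulVecLin.toContinuousLinearMap) := h4.hasMFDerivAt
  have h6 : HasMFDerivAt 𝓘(ℝ, Fin k → ℝ) 𝓘(ℝ, E) (fun v => R v (f x)) (A.mulVec 0)
      (mfderiv 𝓘(ℝ, Fin k → ℝ) 𝓘(ℝ, E) (fun v => R v (f x)) (A.mulVec 0)) :=
    ((h.smooth_orb (f x)).mdifferentiableAt (by norm_num)).hasMFDerivAt
  have h7 := h6.comp (0 : Fin k → ℝ) h5
  have h8 : (f ∘ fun v => R v x) = (fun v => R v (f x)) ∘ fun v : Fin k → ℝ => A.mulVec v := by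
    funext v
    exact hfR v x
  have h9 : ((mfderiv 𝓘(ℝ, E) 𝓘(ℝ, E) f (R 0 x) : E → E)
      ((mfderiv 𝓘(ℝ, Fin k → ℝ) 𝓘(ℝ, E) (fun v => R v x) 0 : (Fin k → ℝ) → E) v)) =
      (mfderiv 𝓘(ℝ, Fin k → ℝ) 𝓘(ℝ, E) (fun v => R v (f x)) (A.mulVec 0) : (Fin k → ℝ) → E)
        (A.mulVec v) := by
    have h10 : (mfderiv 𝓘(ℝ, Fin k → ℝ) 𝓘(ℝ, E) (f ∘ fun v => R v x) 0 : (Fin k → ℝ) → E) v =
        (mfderiv 𝓘(ℝ, Fin k → ℝ) 𝓘(ℝ, E)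
          ((fun v => R v (f x)) ∘ fun v : Fin k → ℝ => A.mulVec v) 0 : (Fin k → ℝ) → E) v := by
      rw [h8]
    rw [h3.mfderiv, h7.mfderiv] at h10
    exact h10
  have h11 : dg E f x = dg E f (R 0 x) := by rw [h.zero]
  rw [h11]
  have h12 : A.mulVec 0 = 0 := Matrix.mulVec_zero A
  rw [h12] at h9
  exact h9

end act

end Pool.Agent.H66.Fib
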