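import Pool.Agent.H66.Fib.Fd

/-!
# The base map is Anosov if and only if the vertical bundle splits
-/

set_option autoImplicit false
set_option linter.unusedSectionVars false

open scoped Manifold ContDiff Topology Bundle
open Set Filter Bundle

namespace Pool.Agent.H66.Fib

open Pool.Agent.H721R2 Pool.Agent.H789R2.AN Pool.Agent.R189.Fb

variable {E : Type*} [NormedAddCommGroup E] [NormedSpace ℝ E] [FiniteDimensional ℝ E]
  {M : Type*} [TopologicalSpace M] [T2Space M] [CompactSpace M] [ChartedSpace E M]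
  [IsManifold 𝓘(ℝ, E) ∞ M]
  {E' : Type*} [NormedAddCommGroup E'] [NormedSpace ℝ E'] [FiniteDimensional ℝ E']
  {B : Type*} [TopologicalSpace B] [T2Space B] [CompactSpace B] [ChartedSpace E' B]
  [IsManifold 𝓘(ℝ, E') ∞ B]

/-- the vertical bundle is the sum of its stable and its unstable part -/
def VSplit (E E' : Type*) [NormedAddCommGroup E] [NormedSpace ℝ E] [NormedAddCommGroup E']
    [NormedSpace ℝ E'] {M : Type*} [TopologicalSpace M] [ChartedSpace E M]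
    {B : Type*} [TopologicalSpace B] [ChartedSpace E' B] (p : M → B)
    (Es Eu : ∀ x : M, Submodule ℝ (TangentSpace 𝓘(ℝ, E) x)) : Prop :=
  ∀ (x : M) (v : TangentSpace 𝓘(ℝ, E) x), mfderiv 𝓘(ℝ, E) 𝓘(ℝ, E') p x v = 0 →
    ∃ s ∈ Es x, ∃ u ∈ Eu x, mfderiv 𝓘(ℝ, E) 𝓘(ℝ, E') p x s = 0 ∧
      mfderiv 𝓘(ℝ, E) 𝓘(ℝ, E') p x u = 0 ∧ s + u = v

/-- the base is Anosov if the vertical bundle splits -/
theorem base_of_split (f : Diffeomorph 𝓘(ℝ, E) 𝓘(ℝ, E) M M 1)
    (Es Eu : ∀ x : M, Submodule ℝ (TangentSpace 𝓘(ℝ, E) x)) (hA : IsAnosov f Es Eu)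
    (p : M → B) (hp : ContMDiff 𝓘(ℝ, E) 𝓘(ℝ, E') 1 p)
    (hps : ∀ x, Function.Surjective (mfderiv 𝓘(ℝ, E) 𝓘(ℝ, E') p x)) (hsur : Function.Surjective p)
    (g : Diffeomorph 𝓘(ℝ, E') 𝓘(ℝ, E') B B 1) (hfg : ∀ x, p (f x) = g (p x))
    (hsp : VSplit E E' p Es Eu) :
    ∃ Es' Eu' : ∀ y : B, Submodule ℝ (TangentSpace 𝓘(ℝ, E') y), IsAnosov g Es' Eu' := by
  classical
  have hkerr : ∀ x, Module.finrank ℝ (LinearMap.ker (di E E' p x).toLinearMap) =
      Module.finrank ℝ E - Module.finrank ℝ E' := by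
    intro x
    have h1 := LinearMap.finrank_range_add_finrank_ker (di E E' p x).toLinearMap
    have h2 : LinearMap.range (di E E' p x).toLinearMap = ⊤ := LinearMap.range_eq_top.mpr (hps x)
    rw [h2, finrank_top] at h1
    omega
  obtain ⟨m, e, he, hemb, hinj⟩ := exists_embedding_euclidean_of_compact (I := 𝓘(ℝ, E)) (M := M)
  let _ : MetricSpace M := hemb.isEmbedding.comapMetricSpace e
  have he1 : ContMDiff 𝓘(ℝ, E) (𝓡 m) 1 e := he.of_le (by simp)
  obtain ⟨m', e', he', hemb', hinj'⟩ :=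
    exists_embedding_euclidean_of_compact (I := 𝓘(ℝ, E')) (M := B)
  have he1' : ContMDiff 𝓘(ℝ, E') (𝓡 m') 1 e' := he'.of_le (by simp)
  have hh : ContMDiff 𝓘(ℝ, E) (𝓡 m') 1 (e' ∘ p) := he1'.comp hp
  have hdp : ∀ z v, dm E (e' ∘ p) z v = dm E' e' (p z) (di E E' p z v) := dm_comp_di e' he1' p hp
  have hker : ∀ z v, dm E (e' ∘ p) z v = 0 ↔ di E E' p z v = 0 := fun z v => by
    rw [hdp]
    constructor
    · intro h0
      exact hinj' _ (h0.trans (map_zero _).symm)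
    · intro h0
      rw [h0, map_zero]
  obtain ⟨K₀, hK₀, hkp⟩ := ker_unif e he1 (e' ∘ p) hh _ (fun x => by
    have h1 : LinearMap.ker (dm E (e' ∘ p) x).toLinearMap =
        LinearMap.ker (di E E' p x).toLinearMap := by
      ext v
      exact hker x v
    rw [h1, hkerr x])
  obtain ⟨C', a, b, Ls, Lu, hE⟩ := eanosov_of_isAnosov e he1 hinj f Es Eu hA
  obtain ⟨K, hK, hang⟩ := hE.angle he1 hinj
  obtain ⟨R, hR, hRv⟩ : ∃ R > 0, ∀ x : M, ∀ v : E,
      ‖dm E (e' ∘ p) x v‖ ≤ R * ‖dm E e x v‖ := by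
    apply exists_uniform_const
    · intro C C' x hCC' h v
      exact (h v).trans (mul_le_mul_of_nonneg_right hCC' (norm_nonneg _))
    · intro x₀
      obtain ⟨⟨C, hC, h1⟩, -⟩ := local_all e he1 hinj (e' ∘ p) hh x₀
      refine ⟨C * C, ?_⟩
      filter_upwards [h1] with x hx v
      obtain ⟨h2, h3⟩ := hx v
      calc _ ≤ C * ‖dm E (extChartAt 𝓘(ℝ, E) x₀) x v‖ := h3
        _ ≤ C * (C * ‖dm E e x v‖) := mul_le_mul_of_nonneg_left h2 hC.le
        _ = _ := by ring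
  have hFD : FD (E' := E') e e' p f.toHomeomorph g.toHomeomorph Es Eu C' a b Ls Lu K K₀ R := {
    an := hE
    psm := hp
    surj := hps
    fg := hfg
    gsm := g.contMDiff
    gsm' := g.symm.contMDiff
    inj' := hinj'
    K_pos := by linarith
    ang := hang
    K₀_pos := hK₀
    ker := fun x v => by
      obtain ⟨v', h1, h2⟩ := hkp x v
      rw [hdp] at h2
      exact ⟨v', (hker x v').mp h1, h2⟩
    R_pos := hR
    up := fun x v => by
      have := hRv x v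
      rwa [hdp] at this
    split := hsp }
  exact ⟨_, _, hFD.base he1' g (fun y => Function.surjInv_eq hsur y)⟩

/-- the vertical bundle splits if the base is Anosov -/
theorem split_of_base (f : Diffeomorph 𝓘(ℝ, E) 𝓘(ℝ, E) M M 1)
    (Es Eu : ∀ x : M, Submodule ℝ (TangentSpace 𝓘(ℝ, E) x)) (hA : IsAnosov f Es Eu)
    (p : M → B) (hp : ContMDiff 𝓘(ℝ, E) 𝓘(ℝ, E') 1 p)
    (g : Diffeomorph 𝓘(ℝ, E') 𝓘(ℝ, E') B B 1) (hfg : ∀ x, p (f x) = g (p x))
    (Es' Eu' : ∀ y : B, Submodule ℝ (TangentSpace 𝓘(ℝ, E') y)) (hB : IsAnosov g Es' Eu') :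
    VSplit E E' p Es Eu := by
  obtain ⟨m, e, he, hemb, hinj⟩ := exists_embedding_euclidean_of_compact (I := 𝓘(ℝ, E)) (M := M)
  let _ : MetricSpace M := hemb.isEmbedding.comapMetricSpace e
  have he1 : ContMDiff 𝓘(ℝ, E) (𝓡 m) 1 e := he.of_le (by simp)
  obtain ⟨m', e', he', hemb', hinj'⟩ :=
    exists_embedding_euclidean_of_compact (I := 𝓘(ℝ, E')) (M := B)
  let _ : MetricSpace B := hemb'.isEmbedding.comapMetricSpace e'
  have he1' : ContMDiff 𝓘(ℝ, E') (𝓡 m') 1 e' := he'.of_le (by simp)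
  have hh : ContMDiff 𝓘(ℝ, E) (𝓡 m') 1 (e' ∘ p) := he1'.comp hp
  have hdp : ∀ z v, dm E (e' ∘ p) z v = dm E' e' (p z) (di E E' p z v) := dm_comp_di e' he1' p hp
  obtain ⟨C, a, b, Ls, Lu, hE⟩ := eanosov_of_isAnosov e he1 hinj f Es Eu hA
  obtain ⟨C₁, a₁, b₁, Ls₁, Lu₁, hE₁⟩ := eanosov_of_isAnosov e' he1' hinj' g Es' Eu' hB
  obtain ⟨K₁, hK₁, hang₁⟩ := hE₁.angle he1' hinj'
  obtain ⟨R, hR, hRv⟩ : ∃ R > 0, ∀ x : M, ∀ v : E,
      ‖dm E (e' ∘ p) x v‖ ≤ R * ‖dm E e x v‖ := by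
    apply exists_uniform_const
    · intro C C' x hCC' h v
      exact (h v).trans (mul_le_mul_of_nonneg_right hCC' (norm_nonneg _))
    · intro x₀
      obtain ⟨⟨C, hC, h1⟩, -⟩ := local_all e he1 hinj (e' ∘ p) hh x₀
      refine ⟨C * C, ?_⟩
      filter_upwards [h1] with x hx v
      obtain ⟨h2, h3⟩ := hx v
      calc _ ≤ C * ‖dm E (extChartAt 𝓘(ℝ, E) x₀) x v‖ := h3
        _ ≤ C * (C * ‖dm E e x v‖) := mul_le_mul_of_nonneg_left h2 hC.le
        _ = _ := by ring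
  -- vectors with bounded images
  have key : ∀ (φ : M ≃ₜ M) (ψ : B ≃ₜ B) (_ : ContMDiff 𝓘(ℝ, E) 𝓘(ℝ, E) 1 φ)
      (_ : ContMDiff 𝓘(ℝ, E') 𝓘(ℝ, E') 1 ψ) (_ : ∀ x, p (φ x) = ψ (p x))
      (x : M) (s : E) (D : ℝ), (∀ n : ℕ, ‖dm E e (φ^[n] x) (dg E (φ^[n]) x s)‖ ≤ D) →
      ∀ n : ℕ, ‖dm E' e' (ψ^[n] (p x)) (dg E' (ψ^[n]) (p x) (di E E' p x s))‖ ≤ R * D * 1 ^ n := by
    intro φ ψ hφ hψ hφψ x s D hD n
    have hc : ∀ x, p (φ^[n] x) = ψ^[n] (p x) := by
      induction n with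
      | zero => intro x; rfl
      | succ n ih =>
        intro x
        rw [Function.iterate_succ_apply', hφψ, ih, Function.iterate_succ_apply']
    have h1 := di_sq p hp (φ^[n]) (iter_smooth φ hφ n) (ψ^[n]) (iter_smooth ψ hψ n) hc x s
    have h2 := hRv (φ^[n] x) (dg E (φ^[n]) x s)
    rw [hdp, h1, hc] at h2
    rw [one_pow, mul_one]
    exact h2.trans (mul_le_mul_of_nonneg_left (hD n) hR.le)
  intro x v hv
  obtain ⟨s, hs, u, hu, hsu⟩ := hE.decomp x v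
  have hv' : di E E' p x v = 0 := hv
  have hC := hE.C_pos
  have hsu' : di E E' p x s = -di E E' p x u := by
    rw [← hsu, map_add] at hv'
    exact eq_neg_of_add_eq_zero_left hv'
  have h1 : di E E' p x s ∈ Es' (p x) := by
    refine mem_s_of_slow hE₁ hinj' hang₁ (by linarith) (q := 1) zero_le_one
      (by simpa using hE₁.b_lt)
      (key f.toHomeomorph g.toHomeomorph hE.smooth hE₁.smooth hfg x s (C * ‖dm E e x s‖) ?_)
    intro n
    refine (hE.hS n x s hs).trans ?_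
    refine mul_le_mul_of_nonneg_right ?_ (norm_nonneg _)
    calc C * a ^ n ≤ C * 1 := mul_le_mul_of_nonneg_left (pow_le_one₀ hE.a_pos.le hE.a_lt.le)
          (by linarith)
      _ = C := mul_one C
  have h2 : di E E' p x u ∈ Eu' (p x) := by
    refine mem_s_of_slow hE₁.symm hinj' (fun x s hs u hu => ?_) (by linarith : (0:ℝ) ≤ K₁) (q := 1)
      zero_le_one (by simpa using hE₁.a_lt)
      (key f.toHomeomorph.symm g.toHomeomorph.symm hE.smooth' hE₁.smooth' (fun x => ?_) x u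
        (C * ‖dm E e x u‖) ?_)
    · have := hang₁ x u hu s hs
      rw [add_comm u s] at this
      exact ⟨this.2, this.1⟩
    · have h1 := hfg (f.symm x)
      rw [f.apply_symm_apply] at h1
      show p (f.symm x) = g.symm (p x)
      rw [h1, g.symm_apply_apply]
    · intro n
      refine (hE.hU' n x u hu).trans ?_
      refine mul_le_mul_of_nonneg_right ?_ (norm_nonneg _)
      calc C * b ^ n ≤ C * 1 := mul_le_mul_of_nonneg_left (pow_le_one₀ hE.b_pos.le hE.b_lt.le)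
            (by linarith)
        _ = C := mul_one C
  have h3 : di E E' p x s ∈ (Es' (p x) : Submodule ℝ E') ⊓ Eu' (p x) := by
    refine ⟨h1, ?_⟩
    rw [hsu']
    exact Submodule.neg_mem _ h2
  have h4 : (Es' (p x) : Submodule ℝ E') ⊓ Eu' (p x) = ⊥ := (hB.isCompl (p x)).inf_eq_bot
  rw [h4] at h3
  have h5 : di E E' p x s = 0 := h3
  refine ⟨s, hs, u, hu, h5, ?_, hsu⟩
  have h6 : di E E' p x u = 0 := by
    rw [h5] at hsu'
    exact neg_eq_zero.mp hsu'.symm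
  exact h6

end Pool.Agent.H66.Fib
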