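import Pool.Agent.H66.Fib.Split
import Pool.Agent.H66.L.Tb0a926ef.R189.Fb1
import Pool.Agent.H66.L.S8.H789R2.AN.Man

/-!
# The map induced on the base of an invariant fibration is Anosov

(The sections `sq`, `tn`, `fd` and `opn` are taken from the library, R189, where they are
used for fibrations by surfaces.)
-/

set_option autoImplicit false
set_option linter.unusedSectionVars false

open scoped Manifold ContDiff Topology Bundle
open Set Filter Bundle

namespace Pool.Agent.H66.Fib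

open Pool.Agent.H721R2 Pool.Agent.H789R2.AN Pool.Agent.R189.Fb

section sq
variable {E : Type*} [NormedAddCommGroup E] [NormedSpace ℝ E]
  {M : Type*} [TopologicalSpace M] [ChartedSpace E M] [IsManifold 𝓘(ℝ, E) 1 M]
  {E₂ : Type*} [NormedAddCommGroup E₂] [NormedSpace ℝ E₂]
  {Q : Type*} [TopologicalSpace Q] [ChartedSpace E₂ Q] [IsManifold 𝓘(ℝ, E₂) 1 Q]
  {F : Type*} [NormedAddCommGroup F] [NormedSpace ℝ F]

/-- derivative of a map between manifolds, read in the model spaces -/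
noncomputable def di (E₂ E : Type*) [NormedAddCommGroup E] [NormedSpace ℝ E]
    [NormedAddCommGroup E₂] [NormedSpace ℝ E₂]
    {M : Type*} [TopologicalSpace M] [ChartedSpace E M]
    {Q : Type*} [TopologicalSpace Q] [ChartedSpace E₂ Q] (j : Q → M) (z : Q) : E₂ →L[ℝ] E :=
  mfderiv 𝓘(ℝ, E₂) 𝓘(ℝ, E) j z

theorem dm_comp_di (e : M → F) (he : ContMDiff 𝓘(ℝ, E) 𝓘(ℝ, F) 1 e) (j : Q → M)
    (hj : ContMDiff 𝓘(ℝ, E₂) 𝓘(ℝ, E) 1 j) (z : Q) (v : E₂) :
    dm E₂ (e ∘ j) z v = dm E e (j z) (di E₂ E j z v) := by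
  have h := mfderiv_comp z (he.mdifferentiableAt (by norm_num) : MDifferentiableAt 𝓘(ℝ, E)
    𝓘(ℝ, F) e (j z)) (hj.mdifferentiableAt (by norm_num) : MDifferentiableAt 𝓘(ℝ, E₂)
    𝓘(ℝ, E) j z)
  show mfderiv 𝓘(ℝ, E₂) 𝓘(ℝ, F) (e ∘ j) z v = _
  rw [h]
  rfl

/-- commuting squares -/
theorem di_sq (j : Q → M) (hj : ContMDiff 𝓘(ℝ, E₂) 𝓘(ℝ, E) 1 j) (G : Q → Q)
    (hG : ContMDiff 𝓘(ℝ, E₂) 𝓘(ℝ, E₂) 1 G) (g : M → M) (hg : ContMDiff 𝓘(ℝ, E) 𝓘(ℝ, E) 1 g)
    (h : ∀ z, j (G z) = g (j z)) (z : Q) (v : E₂) :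
    di E₂ E j (G z) (dg E₂ G z v) = dg E g (j z) (di E₂ E j z v) := by
  have h1 := mfderiv_comp z (hj.mdifferentiableAt (by norm_num) : MDifferentiableAt 𝓘(ℝ, E₂)
    𝓘(ℝ, E) j (G z)) (hG.mdifferentiableAt (by norm_num) : MDifferentiableAt 𝓘(ℝ, E₂)
    𝓘(ℝ, E₂) G z)
  have h2 := mfderiv_comp z (hg.mdifferentiableAt (by norm_num) : MDifferentiableAt 𝓘(ℝ, E)
    𝓘(ℝ, E) g (j z)) (hj.mdifferentiableAt (by norm_num) : MDifferentiableAt 𝓘(ℝ, E₂)
    𝓘(ℝ, E) j z)
  have h3 : j ∘ G = g ∘ j := funext h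
  have h4 : (mfderiv 𝓘(ℝ, E₂) 𝓘(ℝ, E) (j ∘ G) z : E₂ → E) v =
      (mfderiv 𝓘(ℝ, E₂) 𝓘(ℝ, E) (g ∘ j) z : E₂ → E) v := by rw [h3]
  rw [h1, h2] at h4
  exact h4

end sq

section tn
variable {E : Type*} [NormedAddCommGroup E] [NormedSpace ℝ E]
  {M : Type*} [TopologicalSpace M] [ChartedSpace E M] [IsManifold 𝓘(ℝ, E) 1 M]
  {F : Type*} [NormedAddCommGroup F] [NormedSpace ℝ F]

/-- the norm induced by an immersion -/
theorem emb_tnorm (e : M → F) (he : ContMDiff 𝓘(ℝ, E) 𝓘(ℝ, F) 1 e)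
    (hinj : ∀ x, Function.Injective (dm E e x)) :
    IsTangentNorm (fun w : TangentBundle 𝓘(ℝ, E) M => ‖dm E e w.1 w.2‖) where
  continuous := by
    have h1 : Continuous (tangentMap 𝓘(ℝ, E) 𝓘(ℝ, F) e) := he.continuous_tangentMap (by norm_num)
    have h2 := (tangentBundleModelSpaceHomeomorph 𝓘(ℝ, F)).continuous.comp h1
    have h3 : Continuous (fun q : ModelProd F F => ‖(q.2 : F)‖) :=
      (continuous_norm.comp continuous_snd : Continuous (fun q : F × F => ‖q.2‖))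
    have h4 := h3.comp h2
    have h5 : (fun w : TangentBundle 𝓘(ℝ, E) M => ‖dm E e w.1 w.2‖) =
        (fun q : ModelProd F F => ‖(q.2 : F)‖) ∘ (tangentBundleModelSpaceHomeomorph 𝓘(ℝ, F)) ∘
          tangentMap 𝓘(ℝ, E) 𝓘(ℝ, F) e := by
      funext w
      simp only [Function.comp, tangentBundleModelSpaceHomeomorph_coe]
      rfl
    rw [h5]
    exact h4
  pos := fun x v hv => by
    rw [norm_pos_iff]
    intro h0
    exact hv (hinj x (h0.trans (map_zero (dm E e x)).symm))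
  smul := fun x c v => by
    show ‖dm E e x (c • v)‖ = _
    have : dm E e x (c • v) = c • dm E e x v := (dm E e x).map_smul c v
    rw [this, norm_smul, Real.norm_eq_abs]
  add := fun x v w => by
    show ‖dm E e x (v + w)‖ ≤ _
    have : dm E e x (v + w) = dm E e x v + dm E e x w := (dm E e x).map_add v w
    rw [this]
    exact norm_add_le _ _

end tn

section fd
variable {E : Type*} [NormedAddCommGroup E] [NormedSpace ℝ E]
  {M : Type*} [TopologicalSpace M] [ChartedSpace E M] [IsManifold 𝓘(ℝ, E) 1 M]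
  {F : Type*} [NormedAddCommGroup F] [NormedSpace ℝ F]
  {E' : Type*} [NormedAddCommGroup E'] [NormedSpace ℝ E']
  {B : Type*} [TopologicalSpace B] [ChartedSpace E' B] [IsManifold 𝓘(ℝ, E') 1 B]
  {F' : Type*} [NormedAddCommGroup F'] [NormedSpace ℝ F']

/-- Anosov data compatible with a fibration, in ambient norms. -/
structure FD (e : M → F) (e' : B → F') (p : M → B) (f : M ≃ₜ M) (g : B ≃ₜ B)
    (Es Eu : M → Submodule ℝ E) (C a b Ls Lu K K₀ R : ℝ) : Prop where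
  an : EAnosov e f Es Eu C a b Ls Lu
  psm : ContMDiff 𝓘(ℝ, E) 𝓘(ℝ, E') 1 p
  surj : ∀ x, Function.Surjective (di E E' p x)
  fg : ∀ x, p (f x) = g (p x)
  gsm : ContMDiff 𝓘(ℝ, E') 𝓘(ℝ, E') 1 g
  gsm' : ContMDiff 𝓘(ℝ, E') 𝓘(ℝ, E') 1 g.symm
  inj' : ∀ y, Function.Injective (dm E' e' y)
  K_pos : 0 < K
  ang : ∀ x, ∀ s ∈ Es x, ∀ u ∈ Eu x,
      ‖dm E e x s‖ ≤ K * ‖dm E e x (s + u)‖ ∧ ‖dm E e x u‖ ≤ K * ‖dm E e x (s + u)‖
  K₀_pos : 0 < K₀
  ker : ∀ x, ∀ v : E, ∃ v', di E E' p x v' = 0 ∧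
      ‖dm E e x (v - v')‖ ≤ K₀ * ‖dm E' e' (p x) (di E E' p x v)‖
  R_pos : 0 < R
  up : ∀ x, ∀ v : E, ‖dm E' e' (p x) (di E E' p x v)‖ ≤ R * ‖dm E e x v‖
  split : ∀ x, ∀ v : E, di E E' p x v = 0 → ∃ s ∈ Es x, ∃ u ∈ Eu x,
      di E E' p x s = 0 ∧ di E E' p x u = 0 ∧ s + u = v

variable {e : M → F} {e' : B → F'} {p : M → B} {f : M ≃ₜ M} {g : B ≃ₜ B}
    {Es Eu : M → Submodule ℝ E} {C a b Ls Lu K K₀ R : ℝ}

theorem FD.symm (h : FD (E' := E') e e' p f g Es Eu C a b Ls Lu K K₀ R) :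
    FD (E' := E') e e' p f.symm g.symm Eu Es C b a Lu Ls K K₀ R where
  an := h.an.symm
  psm := h.psm
  surj := h.surj
  fg := fun x => by
    have h1 := h.fg (f.symm x)
    rw [f.apply_symm_apply] at h1
    rw [h1, g.symm_apply_apply]
  gsm := h.gsm'
  gsm' := h.gsm
  inj' := h.inj'
  K_pos := h.K_pos
  ang := fun x s hs u hu => by
    have := h.ang x u hu s hs
    rw [add_comm u s] at this
    exact ⟨this.2, this.1⟩
  K₀_pos := h.K₀_pos
  ker := h.ker
  R_pos := h.R_pos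
  up := h.up
  split := fun x v hv => by
    obtain ⟨s, hs, u, hu, h1, h2, h3⟩ := h.split x v hv
    exact ⟨u, hu, s, hs, h2, h1, by rw [add_comm]; exact h3⟩

theorem FD.fg_iter (h : FD (E' := E') e e' p f g Es Eu C a b Ls Lu K K₀ R) (n : ℕ) (x : M) :
    p (f^[n] x) = g^[n] (p x) := by
  induction n with
  | zero => rfl
  | succ n ih => rw [Function.iterate_succ_apply', h.fg, ih, Function.iterate_succ_apply']

/-- equivariance of the differential -/
theorem FD.di_iter (h : FD (E' := E') e e' p f g Es Eu C a b Ls Lu K K₀ R) (n : ℕ) (x : M) (v : E) :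
    di E E' p (f^[n] x) (dg E (f^[n]) x v) = dg E' (g^[n]) (p x) (di E E' p x v) :=
  di_sq p h.psm (f^[n]) (iter_smooth f h.an.smooth n) (g^[n]) (iter_smooth g h.gsm n)
    (h.fg_iter n) x v

/-- bounded lifts -/
theorem FD.lift (h : FD (E' := E') e e' p f g Es Eu C a b Ls Lu K K₀ R) (x : M) (s : E) (hs : s ∈ Es x) :
    ∃ s' ∈ Es x, di E E' p x s' = di E E' p x s ∧
      ‖dm E e x s'‖ ≤ K * K₀ * ‖dm E' e' (p x) (di E E' p x s)‖ := by
  obtain ⟨k, hk, hkn⟩ := h.ker x s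
  obtain ⟨ks, hks, ku, hku, h1, h2, h3⟩ := h.split x k hk
  refine ⟨s - ks, Submodule.sub_mem _ hs hks, by rw [map_sub, h1, sub_zero], ?_⟩
  obtain ⟨h4, -⟩ := h.ang x (s - ks) (Submodule.sub_mem _ hs hks) (-ku) (Submodule.neg_mem _ hku)
  have e1 : s - ks + -ku = s - k := by rw [← h3]; abel
  rw [e1] at h4
  calc _ ≤ K * ‖dm E e x (s - k)‖ := h4
    _ ≤ K * (K₀ * ‖dm E' e' (p x) (di E E' p x s)‖) := mul_le_mul_of_nonneg_left hkn h.K_pos.le
    _ = _ := by ring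

/-- the stable space of the base does not depend on the lift -/
theorem FD.transfer (h : FD (E' := E') e e' p f g Es Eu C a b Ls Lu K K₀ R) (x x' : M) (hx : p x = p x')
    (s : E) (hs : s ∈ Es x) : ∃ s' ∈ Es x', di E E' p x' s' = di E E' p x s := by
  obtain ⟨v', hv'⟩ := h.surj x' (di E E' p x s)
  obtain ⟨s', hs', u', hu', hsum⟩ := h.an.decomp x' v'
  refine ⟨s', hs', ?_⟩
  have key : dm E' e' (p x') (di E E' p x' u') = 0 := by
    set N := ‖dm E e x s‖ + ‖dm E e x' s'‖ with hN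
    have hb : ∀ n : ℕ, ‖dm E' e' (p x') (di E E' p x' u')‖ ≤
        (R * (K * K₀) * R * C * N) * (C * b ^ n) * a ^ n := by
      intro n
      set y := f^[n] x' with hy
      set un := dg E (f^[n]) x' u' with hun
      obtain ⟨wn, hwn, hw1, hw2⟩ := h.symm.lift y un (h.an.mapU n x' u' hu')
      -- pull back
      have e1 : dm E' e' (p (f.symm^[n] y)) (di E E' p (f.symm^[n] y) (dg E (f.symm^[n]) y wn)) =
          dm E' e' (p (f.symm^[n] y)) (di E E' p (f.symm^[n] y) (dg E (f.symm^[n]) y un)) := by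
        rw [h.symm.di_iter n y wn, h.symm.di_iter n y un, hw1]
      have e2 : dg E (f.symm^[n]) y un = u' :=
        dg_inv (f^[n]) (f.symm^[n]) (iter_smooth f h.an.smooth n) (iter_smooth _ h.an.smooth' n)
          (iter_left f n) x' u'
      rw [e2] at e1
      have e3 : f.symm^[n] y = x' := iter_left f n x'
      have b1 := h.up (f.symm^[n] y) (dg E (f.symm^[n]) y wn)
      rw [e1] at b1
      have b2 := h.an.hU' n y wn hwn
      have b3 : ‖dm E' e' (p x') (di E E' p x' u')‖ ≤ R * (C * b ^ n * ‖dm E e y wn‖) := by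
        rw [e3] at b1
        exact b1.trans (mul_le_mul_of_nonneg_left (by rw [← e3] ; exact b2) h.R_pos.le)
      -- the size of the projection
      have c1 : dm E' e' (p y) (di E E' p y (dg E (f^[n]) x' v')) =
          dm E' e' (p (f^[n] x)) (di E E' p (f^[n] x) (dg E (f^[n]) x s)) := by
        rw [hy, h.di_iter n x' v', hv', h.di_iter n x s, h.fg_iter n x', h.fg_iter n x, hx]
      have c2 : ‖dm E' e' (p y) (di E E' p y (dg E (f^[n]) x' v'))‖ ≤
          R * (C * a ^ n * ‖dm E e x s‖) := by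
        rw [c1]
        exact (h.up _ _).trans (mul_le_mul_of_nonneg_left (h.an.hS n x s hs) h.R_pos.le)
      have c3 : ‖dm E' e' (p y) (di E E' p y (dg E (f^[n]) x' s'))‖ ≤
          R * (C * a ^ n * ‖dm E e x' s'‖) :=
        (h.up _ _).trans (mul_le_mul_of_nonneg_left (h.an.hS n x' s' hs') h.R_pos.le)
      have c4 : un = dg E (f^[n]) x' v' - dg E (f^[n]) x' s' := by
        rw [hun, ← hsum, map_add]; abel
      have c5 : ‖dm E' e' (p y) (di E E' p y un)‖ ≤ R * C * N * a ^ n := by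
        rw [c4, map_sub, map_sub]
        refine (norm_sub_le _ _).trans ((add_le_add c2 c3).trans (le_of_eq ?_))
        rw [hN]; ring
      have hC := h.an.C_pos
      have hb0 : 0 ≤ C * b ^ n := mul_nonneg (by linarith) (pow_nonneg h.an.b_pos.le n)
      have hKK : 0 ≤ K * K₀ := mul_nonneg h.K_pos.le h.K₀_pos.le
      calc _ ≤ R * (C * b ^ n * ‖dm E e y wn‖) := b3
        _ ≤ R * (C * b ^ n * (K * K₀ * (R * C * N * a ^ n))) := by
            refine mul_le_mul_of_nonneg_left (mul_le_mul_of_nonneg_left ?_ hb0) h.R_pos.le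
            exact hw2.trans (mul_le_mul_of_nonneg_left c5 hKK)
        _ = _ := by ring
    have ht : Tendsto (fun n : ℕ => (R * (K * K₀) * R * C * N) * (C * b ^ n) * a ^ n) atTop
        (𝓝 0) := by
      have h1 := (tendsto_pow_atTop_nhds_zero_of_lt_one h.an.b_pos.le h.an.b_lt).const_mul C
      have h2 := (h1.const_mul (R * (K * K₀) * R * C * N)).mul
        (tendsto_pow_atTop_nhds_zero_of_lt_one h.an.a_pos.le h.an.a_lt)
      simpa using h2
    exact norm_le_zero_iff.mp (ge_of_tendsto' ht hb)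
  have h0 : di E E' p x' u' = 0 := h.inj' _ (key.trans (map_zero _).symm)
  have h1 : di E E' p x' v' = di E E' p x' s' := by rw [← hsum, map_add, h0, add_zero]
  rw [← h1, hv']

/-- the projected spaces -/
noncomputable def bs (E' : Type*) [NormedAddCommGroup E'] [NormedSpace ℝ E']
    {E : Type*} [NormedAddCommGroup E] [NormedSpace ℝ E]
    {M : Type*} [TopologicalSpace M] [ChartedSpace E M]
    {B : Type*} [TopologicalSpace B] [ChartedSpace E' B] (p : M → B) (σ : B → M)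
    (V : M → Submodule ℝ E) (y : B) : Submodule ℝ E' :=
  (V (σ y)).map (di E E' p (σ y)).toLinearMap

theorem mem_bs {σ : B → M} (hσ : ∀ y, p (σ y) = y) {V : M → Submodule ℝ E}
    (tr : ∀ x x', p x = p x' → ∀ s ∈ V x, ∃ s' ∈ V x', di E E' p x' s' = di E E' p x s)
    (y : B) (w : E') : w ∈ bs E' p σ V y ↔ ∃ x, p x = y ∧ ∃ s ∈ V x, di E E' p x s = w := by
  constructor
  · rintro ⟨s, hs, rfl⟩
    exact ⟨σ y, hσ y, s, hs, rfl⟩
  · rintro ⟨x, rfl, s, hs, rfl⟩
    obtain ⟨s', hs', h1⟩ := tr x (σ (p x)) (hσ _).symm s hs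
    exact ⟨s', hs', h1⟩

theorem bs_map {σ : B → M} (hσ : ∀ y, p (σ y) = y) {V : M → Submodule ℝ E}
    (tr : ∀ x x', p x = p x' → ∀ s ∈ V x, ∃ s' ∈ V x', di E E' p x' s' = di E E' p x s)
    (hp : ContMDiff 𝓘(ℝ, E) 𝓘(ℝ, E') 1 p) {φ : M → M} (hφ : ContMDiff 𝓘(ℝ, E) 𝓘(ℝ, E) 1 φ)
    {ψ : B → B} (hψ : ContMDiff 𝓘(ℝ, E') 𝓘(ℝ, E') 1 ψ) (hc : ∀ x, p (φ x) = ψ (p x))
    (mp : ∀ x, ∀ v ∈ V x, dg E φ x v ∈ V (φ x)) (y : B) (w : E') (hw : w ∈ bs E' p σ V y) :
    dg E' ψ y w ∈ bs E' p σ V (ψ y) := by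
  obtain ⟨x, rfl, s, hs, rfl⟩ := (mem_bs hσ tr y w).mp hw
  rw [mem_bs hσ tr]
  exact ⟨φ x, hc x, dg E φ x s, mp x s hs, di_sq p hp φ hφ ψ hψ hc x s⟩

theorem FD.map_s1 (h : FD (E' := E') e e' p f g Es Eu C a b Ls Lu K K₀ R) (x : M) (v : E)
    (hv : v ∈ Es x) : dg E f x v ∈ Es (f x) := by
  have := h.an.mapS 1 x v hv
  rwa [Function.iterate_one] at this

theorem FD.map_u1 (h : FD (E' := E') e e' p f g Es Eu C a b Ls Lu K K₀ R) (x : M) (v : E)
    (hv : v ∈ Eu x) : dg E f x v ∈ Eu (f x) := by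
  have := h.an.mapU 1 x v hv
  rwa [Function.iterate_one] at this

/-- rates in the base -/
theorem FD.rate (h : FD (E' := E') e e' p f g Es Eu C a b Ls Lu K K₀ R) {σ : B → M}
    (hσ : ∀ y, p (σ y) = y) (n : ℕ) (y : B) (w : E') (hw : w ∈ bs E' p σ Es y) :
    ‖dm E' e' (g^[n] y) (dg E' (g^[n]) y w)‖ ≤ (R * C * (K * K₀)) * a ^ n * ‖dm E' e' y w‖ := by
  obtain ⟨x, rfl, s, hs, rfl⟩ := (mem_bs hσ h.transfer y w).mp hw
  obtain ⟨s', hs', h1, h2⟩ := h.lift x s hs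
  rw [← h1, ← h.di_iter n x s', ← h.fg_iter n x]
  rw [← h1] at h2
  have hC := h.an.C_pos
  have ha0 : 0 ≤ C * a ^ n := mul_nonneg (by linarith) (pow_nonneg h.an.a_pos.le n)
  calc _ ≤ R * ‖dm E e (f^[n] x) (dg E (f^[n]) x s')‖ := h.up _ _
    _ ≤ R * (C * a ^ n * ‖dm E e x s'‖) :=
        mul_le_mul_of_nonneg_left (h.an.hS n x s' hs') h.R_pos.le
    _ ≤ R * (C * a ^ n * (K * K₀ * ‖dm E' e' (p x) (di E E' p x s')‖)) :=
        mul_le_mul_of_nonneg_left (mul_le_mul_of_nonneg_left h2 ha0) h.R_pos.le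
    _ = _ := by ring

theorem FD.base_compl (h : FD (E' := E') e e' p f g Es Eu C a b Ls Lu K K₀ R) {σ : B → M}
    (y : B) : IsCompl (bs E' p σ Es y) (bs E' p σ Eu y) := by
  refine ⟨?_, ?_⟩
  · rw [disjoint_iff, eq_bot_iff]
    rintro w ⟨⟨s, hs, rfl⟩, ⟨u, hu, hw⟩⟩
    have h1 : di E E' p (σ y) (s - u) = 0 := by
      rw [map_sub, sub_eq_zero]
      exact hw.symm
    obtain ⟨s₁, hs₁, u₁, hu₁, h2, h3, h4⟩ := h.split (σ y) (s - u) h1
    have h5 : s - s₁ = u + u₁ := by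
      have : s = s₁ + u₁ + u := by rw [h4]; abel
      rw [this]; abel
    have h6 : s - s₁ ∈ Es (σ y) ⊓ Eu (σ y) :=
      ⟨Submodule.sub_mem _ hs hs₁, by rw [h5]; exact Submodule.add_mem _ hu hu₁⟩
    rw [(h.an.compl (σ y)).inf_eq_bot] at h6
    have h7 : s - s₁ = 0 := h6
    have h8 : s = s₁ := sub_eq_zero.mp h7
    have h9 : di E E' p (σ y) s = 0 := by rw [h8]; exact h2
    exact h9
  · rw [codisjoint_iff, eq_top_iff]
    rintro w -
    obtain ⟨v, hv⟩ := h.surj (σ y) w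
    obtain ⟨s, hs, u, hu, hsu⟩ := h.an.decomp (σ y) v
    have h1 : w = di E E' p (σ y) s + di E E' p (σ y) u := by rw [← map_add, hsu, hv]
    rw [h1]
    exact Submodule.add_mem_sup ⟨s, hs, rfl⟩ ⟨u, hu, rfl⟩

/-- **The induced map on the base is Anosov.** -/
theorem FD.base (he' : ContMDiff 𝓘(ℝ, E') 𝓘(ℝ, F') 1 e') (G : Diffeomorph 𝓘(ℝ, E') 𝓘(ℝ, E') B B 1)
    (h : FD (E' := E') e e' p f G.toHomeomorph Es Eu C a b Ls Lu K K₀ R) {σ : B → M}
    (hσ : ∀ y, p (σ y) = y) : IsAnosov G (bs E' p σ Es) (bs E' p σ Eu) where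
  isCompl := fun y => h.base_compl y
  map_s := fun y => by
    apply le_antisymm
    · rintro _ ⟨w, hw, rfl⟩
      exact bs_map hσ h.transfer h.psm h.an.smooth G.contMDiff h.fg h.map_s1 y w hw
    · intro w hw
      have h1 := bs_map hσ h.transfer h.psm h.symm.an.smooth G.symm.contMDiff h.symm.fg
        h.symm.map_u1 (G y) w hw
      have h2 : dg E' G y (dg E' G.symm (G y) w) = w := by
        have h3 := dg_inv G.symm G G.symm.contMDiff G.contMDiff G.apply_symm_apply (G y) w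
        let A : B → E' →L[ℝ] E' := fun y => dg E' G y
        have h4 : A (G.symm (G y)) (dg E' G.symm (G y) w) = w := h3
        rw [G.symm_apply_apply] at h4
        exact h4
      have h5 : dg E' G.symm (G y) w ∈ bs E' p σ Es (G.symm (G y)) := h1
      rw [G.symm_apply_apply] at h5
      exact ⟨_, h5, h2⟩
  map_u := fun y => by
    apply le_antisymm
    · rintro _ ⟨w, hw, rfl⟩
      exact bs_map hσ h.symm.transfer h.psm h.an.smooth G.contMDiff h.fg h.map_u1 y w hw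
    · intro w hw
      have h1 := bs_map hσ h.symm.transfer h.psm h.symm.an.smooth G.symm.contMDiff h.symm.fg
        h.symm.map_s1 (G y) w hw
      have h2 : dg E' G y (dg E' G.symm (G y) w) = w := by
        have h3 := dg_inv G.symm G G.symm.contMDiff G.contMDiff G.apply_symm_apply (G y) w
        let A : B → E' →L[ℝ] E' := fun y => dg E' G y
        have h4 : A (G.symm (G y)) (dg E' G.symm (G y) w) = w := h3
        rw [G.symm_apply_apply] at h4
        exact h4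
      have h5 : dg E' G.symm (G y) w ∈ bs E' p σ Eu (G.symm (G y)) := h1
      rw [G.symm_apply_apply] at h5
      exact ⟨_, h5, h2⟩
  rates := by
    have hC := h.an.C_pos
    have hc0 : 0 < R * C * (K * K₀) :=
      mul_pos (mul_pos h.R_pos (by linarith)) (mul_pos h.K_pos h.K₀_pos)
    refine ⟨_, R * C * (K * K₀), max a b, emb_tnorm e' he' h.inj', hc0,
      lt_max_of_lt_left h.an.a_pos, max_lt h.an.a_lt h.an.b_lt, ?_, ?_⟩
    · intro n y w hw
      refine (h.rate hσ n y w hw).trans ?_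
      refine mul_le_mul_of_nonneg_right (mul_le_mul_of_nonneg_left ?_ hc0.le) (norm_nonneg _)
      exact pow_le_pow_left₀ h.an.a_pos.le (le_max_left _ _) n
    · intro n y w hw
      refine (h.symm.rate hσ n y w hw).trans ?_
      refine mul_le_mul_of_nonneg_right (mul_le_mul_of_nonneg_left ?_ hc0.le) (norm_nonneg _)
      exact pow_le_pow_left₀ h.an.b_pos.le (le_max_right _ _) n

end fd


section opn
variable {E : Type*} [NormedAddCommGroup E] [NormedSpace ℝ E] [FiniteDimensional ℝ E]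
  {M : Type*} [TopologicalSpace M] [ChartedSpace E M]
  {E' : Type*} [NormedAddCommGroup E'] [NormedSpace ℝ E'] [FiniteDimensional ℝ E']
  {B : Type*} [TopologicalSpace B] [ChartedSpace E' B]

/-- submersions are open -/
theorem subm_open (p : M → B) (hp : ContMDiff 𝓘(ℝ, E) 𝓘(ℝ, E') 1 p)
    (hs : ∀ x, Function.Surjective (mfderiv 𝓘(ℝ, E) 𝓘(ℝ, E') p x)) : IsOpenMap p := by
  have := FiniteDimensional.complete ℝ E
  have := FiniteDimensional.complete ℝ E'
  rw [isOpenMap_iff_nhds_le]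
  intro x
  set φ := extChartAt 𝓘(ℝ, E) x with hφ
  set ψ := extChartAt 𝓘(ℝ, E') (p x) with hψ
  set q : E → E' := ψ ∘ p ∘ φ.symm with hq
  obtain ⟨hc, hd⟩ := contMDiffAt_iff.mp (hp x)
  have hd' : ContDiffAt ℝ 1 q (φ x) := by
    have h1 : range (𝓘(ℝ, E) : ModelWithCorners ℝ E E) = univ := by simp
    rw [h1, contDiffWithinAt_univ] at hd
    exact hd
  have hst : HasStrictFDerivAt q (fderiv ℝ q (φ x)) (φ x) := hd'.hasStrictFDerivAt (by norm_num)
  have hmd : mfderiv 𝓘(ℝ, E) 𝓘(ℝ, E') p x = fderiv ℝ q (φ x) := by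
    rw [((hp x).mdifferentiableAt (by norm_num)).mfderiv]
    have h1 : range (𝓘(ℝ, E) : ModelWithCorners ℝ E E) = univ := by simp
    rw [h1, fderivWithin_univ]
    rfl
  have hsur : LinearMap.range (fderiv ℝ q (φ x)).toLinearMap = ⊤ := by
    rw [LinearMap.range_eq_top]
    have := hs x
    rw [hmd] at this
    exact this
  have h2 := hst.map_nhds_eq_of_surj hsur
  have h3 : p =ᶠ[𝓝 x] ψ.symm ∘ q ∘ φ := by
    have h4 : ∀ᶠ y in 𝓝 x, p y ∈ ψ.source := hc.eventually (extChartAt_source_mem_nhds (p x))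
    filter_upwards [extChartAt_source_mem_nhds (I := 𝓘(ℝ, E)) x, h4] with y hy hy'
    show p y = ψ.symm (ψ (p (φ.symm (φ y))))
    rw [φ.left_inv hy, ψ.left_inv hy']
  rw [Filter.map_congr h3, ← Filter.map_map, ← Filter.map_map, hφ,
    map_extChartAt_nhds_of_boundaryless (I := 𝓘(ℝ, E)) x, ← hφ, h2]
  have h5 : q (φ x) = ψ (p x) := by
    show ψ (p (φ.symm (φ x))) = _
    rw [φ.left_inv (mem_extChartAt_source x)]
  rw [h5, hψ]
  have h6 := map_extChartAt_symm_nhdsWithin_range (I := 𝓘(ℝ, E')) (p x)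
  have h1 : range (𝓘(ℝ, E') : ModelWithCorners ℝ E' E') = univ := by simp
  rw [h1, nhdsWithin_univ] at h6
  rw [h6]

end opn

/-- transitivity passes to factors -/
theorem trans_factor {X Y : Type*} [TopologicalSpace X] [TopologicalSpace Y] {φ : X → X}
    {ψ : Y → Y} {p : X → Y} (hc : Continuous p) (hs : Function.Surjective p)
    (h : ∀ x, p (φ x) = ψ (p x)) (ht : TopTransitive φ) : TopTransitive ψ := by
  intro U V hU hUn hV hVn
  have hn : ∀ (n : ℕ) (x : X), p (φ^[n] x) = ψ^[n] (p x) := by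
    intro n
    induction n with
    | zero => intro z; rfl
    | succ n ih => intro z; rw [Function.iterate_succ_apply', h, ih, Function.iterate_succ_apply']
  obtain ⟨u, hu⟩ := hUn
  obtain ⟨v, hv⟩ := hVn
  obtain ⟨u', rfl⟩ := hs u
  obtain ⟨v', rfl⟩ := hs v
  obtain ⟨n, _, ⟨x, hx, rfl⟩, hxv⟩ := ht (p ⁻¹' U) (p ⁻¹' V) (hU.preimage hc) ⟨u', hu⟩
    (hV.preimage hc) ⟨v', hv⟩
  refine ⟨n, ψ^[n] (p x), ⟨p x, hx, rfl⟩, ?_⟩
  rw [← hn]
  exact hxv


end Pool.Agent.H66.Fib
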