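import Pool.Agent.H66.L.S8.W740.TC.Lin

set_option autoImplicit false

/-!
# Linear algebra: expanding and non-expanding parts of a real matrix
-/

namespace Pool.Agent.H66.Fib

open Pool.Agent.W740.TC Module

/-- real parts -/
def re {k : ℕ} (w : Fin k → ℂ) : Fin k → ℝ := fun i => (w i).re

theorem re_norm {k : ℕ} (w : Fin k → ℂ) : ‖re w‖ ≤ ‖w‖ := by
  rw [pi_norm_le_iff_of_nonneg (norm_nonneg _)]
  intro i
  exact (Complex.abs_re_le_norm (w i)).trans (norm_le_pi_norm w i)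

theorem re_add {k : ℕ} (v w : Fin k → ℂ) : re (v + w) = re v + re w := by
  funext i
  simp [re]

/-- the complexification of a real matrix -/
noncomputable def cT {k : ℕ} (A : Matrix (Fin k) (Fin k) ℝ) : End ℂ (Fin k → ℂ) :=
  (A.map Complex.ofReal).mulVecLin

theorem re_cT {k : ℕ} (A : Matrix (Fin k) (Fin k) ℝ) (w : Fin k → ℂ) :
    re (cT A w) = A.mulVec (re w) := by
  funext i
  simp only [re, cT, Matrix.mulVecLin_apply, Matrix.mulVec, dotProduct, Matrix.map_apply,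
    Complex.re_sum, Complex.re_ofReal_mul]

theorem re_cT_pow {k : ℕ} (A : Matrix (Fin k) (Fin k) ℝ) (n : ℕ) (w : Fin k → ℂ) :
    re ((cT A ^ n) w) = (A.mulVec)^[n] (re w) := by
  induction n generalizing w with
  | zero => rfl
  | succ n ih =>
    rw [pow_succ, Module.End.mul_apply, ih, re_cT, Function.iterate_succ_apply]

theorem coe_pow {W : Type*} [AddCommGroup W] [Module ℂ W] (T : End ℂ W) (V : Submodule ℂ W)
    (S : End ℂ V) (h : ∀ v : V, ((S v : V) : W) = T v) (n : ℕ) (v : V) :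
    (((S ^ n) v : V) : W) = (T ^ n) v := by
  induction n generalizing v with
  | zero => rfl
  | succ n ih => rw [pow_succ, pow_succ, Module.End.mul_apply, Module.End.mul_apply, ih, h]

/-- **The splitting.** -/
theorem real_split {k : ℕ} (A : Matrix (Fin k) (Fin k) ℝ) (δ : ℝ) (hδ : 0 < δ) (v : Fin k → ℝ) :
    ∃ (vc vu : Fin k → ℝ) (C l : ℝ), 0 ≤ C ∧ 0 ≤ l ∧ l < 1 ∧ vc + vu = v ∧
      (∀ n : ℕ, ‖(A.mulVec)^[n] vc‖ ≤ C * (1 + δ) ^ n) ∧
      ∀ n : ℕ, ∃ w, (A.mulVec)^[n] w = vu ∧ ‖w‖ ≤ C * l ^ n := by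
  set T := cT A with hT
  obtain ⟨C₁, hC₁, h1⟩ := Tc_growth T δ hδ
  obtain ⟨C₂, l, hl0, hl1, h2⟩ := Tu_exp T
  have h3 : (fun i => ((v i : ℝ) : ℂ) : Fin k → ℂ) ∈ Wu T ⊔ Wc T := by
    rw [(W_compl T).sup_eq_top]; trivial
  obtain ⟨u, hu, c, hc, huc⟩ := Submodule.mem_sup.mp h3
  have hinj : Function.Injective (Tu T) := by
    rw [injective_iff_map_eq_zero]
    intro w hw
    have h4 := h2 1 w
    rw [pow_one, pow_one, hw, norm_zero, mul_zero] at h4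
    exact norm_le_zero_iff.mp h4
  have hsurj : Function.Surjective (Tu T) := LinearMap.injective_iff_surjective.mp hinj
  have hpow : ∀ n : ℕ, ∃ w : Wu T, ((Tu T) ^ n) w = ⟨u, hu⟩ := by
    intro n
    have h4 : Function.Surjective ((Tu T)^[n]) := hsurj.iterate n
    obtain ⟨w, hw⟩ := h4 ⟨u, hu⟩
    exact ⟨w, by rw [Module.End.pow_apply]; exact hw⟩
  refine ⟨re c, re u, C₁ * ‖c‖ + |C₂| * ‖u‖, l, by positivity, hl0, hl1, ?_, ?_, ?_⟩
  · rw [← re_add, add_comm, huc]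
    funext i
    simp [re]
  · intro n
    rw [← re_cT_pow]
    refine (re_norm _).trans ?_
    have h4 := h1 n ⟨c, hc⟩
    have h5 : (((Tc T) ^ n) ⟨c, hc⟩ : Wc T) = ((T ^ n) c : Fin k → ℂ) :=
      coe_pow T (Wc T) (Tc T) (Tc_coe T) n ⟨c, hc⟩
    have h6 : ‖(T ^ n) c‖ ≤ C₁ * (1 + δ) ^ n * ‖c‖ := by
      rw [← h5]
      exact h4
    have h7 : 0 ≤ |C₂| * ‖u‖ * (1 + δ) ^ n := by positivity
    calc _ ≤ C₁ * (1 + δ) ^ n * ‖c‖ := h6
      _ ≤ C₁ * (1 + δ) ^ n * ‖c‖ + |C₂| * ‖u‖ * (1 + δ) ^ n := le_add_of_nonneg_right h7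
      _ = _ := by ring
  · intro n
    obtain ⟨w, hw⟩ := hpow n
    refine ⟨re (w : Fin k → ℂ), ?_, ?_⟩
    · rw [← re_cT_pow]
      have h5 : (((Tu T) ^ n) w : Wu T) = ((T ^ n) (w : Fin k → ℂ) : Fin k → ℂ) :=
        coe_pow T (Wu T) (Tu T) (Tu_coe T) n w
      rw [← hT, ← h5, hw]
    · refine (re_norm _).trans ?_
      have h4 := h2 n w
      rw [hw] at h4
      have h6 : ‖(w : Fin k → ℂ)‖ ≤ C₂ * l ^ n * ‖u‖ := h4
      have h7 : 0 ≤ l ^ n := pow_nonneg hl0 n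
      calc _ ≤ C₂ * l ^ n * ‖u‖ := h6
        _ ≤ |C₂| * l ^ n * ‖u‖ := by gcongr; exact le_abs_self C₂
        _ ≤ |C₂| * l ^ n * ‖u‖ + C₁ * ‖c‖ * l ^ n := le_add_of_nonneg_right (by positivity)
        _ = _ := by ring

end Pool.Agent.H66.Fib
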