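import Pool.Agent.H66.Fib.Lin
import Pool.Agent.H66.L.S8.H721R2.Embed

set_option autoImplicit false
set_option linter.unusedSectionVars false

/-!
# Stable and unstable parts of an invariant frame
-/

open scoped Manifold ContDiff Topology
open Set Filter

namespace Pool.Agent.H66.Fib

open Pool.Agent.H721R2

variable {E : Type*} [NormedAddCommGroup E] [NormedSpace ℝ E]
  {M : Type*} [TopologicalSpace M] [ChartedSpace E M] [IsManifold 𝓘(ℝ, E) 1 M]
  {F : Type*} [NormedAddCommGroup F] [NormedSpace ℝ F]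

/-- vectors of slow forward growth are stable -/
theorem mem_s_of_slow {e : M → F} {f : M ≃ₜ M} {Es Eu : M → Submodule ℝ E} {C a b Ls Lu K : ℝ}
    (h : EAnosov e f Es Eu C a b Ls Lu) (hinj : ∀ x, Function.Injective (dm E e x))
    (hang : ∀ x, ∀ s ∈ Es x, ∀ u ∈ Eu x,
      ‖dm E e x s‖ ≤ K * ‖dm E e x (s + u)‖ ∧ ‖dm E e x u‖ ≤ K * ‖dm E e x (s + u)‖)
    (hK : 0 ≤ K) {x : M} {ξ : E} {D q : ℝ} (hq : 0 ≤ q) (hbq : b * q < 1)
    (hD : ∀ n : ℕ, ‖dm E e (f^[n] x) (dg E (f^[n]) x ξ)‖ ≤ D * q ^ n) : ξ ∈ Es x := by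
  obtain ⟨s, hs, u, hu, hsu⟩ := h.decomp x ξ
  have hC := h.C_pos
  have hb : ∀ n : ℕ, ‖dm E e x u‖ ≤ (C * K * D) * (b * q) ^ n := by
    intro n
    have h1 := h.hU' n (f^[n] x) _ (h.mapU n x u hu)
    rw [dg_inv (f^[n]) (f.symm^[n]) (iter_smooth f h.smooth n) (iter_smooth _ h.smooth' n)
      (iter_left f n), iter_left] at h1
    have h2 := (hang (f^[n] x) _ (h.mapS n x s hs) _ (h.mapU n x u hu)).2
    rw [← map_add, hsu] at h2
    have hb0 : 0 ≤ C * b ^ n := mul_nonneg (by linarith) (pow_nonneg h.b_pos.le n)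
    calc _ ≤ C * b ^ n * ‖dm E e (f^[n] x) (dg E (f^[n]) x u)‖ := h1
      _ ≤ C * b ^ n * (K * (D * q ^ n)) :=
          mul_le_mul_of_nonneg_left (h2.trans (mul_le_mul_of_nonneg_left (hD n) hK)) hb0
      _ = _ := by rw [mul_pow]; ring
  have ht : Tendsto (fun n : ℕ => (C * K * D) * (b * q) ^ n) atTop (𝓝 0) := by
    have := (tendsto_pow_atTop_nhds_zero_of_lt_one (mul_nonneg h.b_pos.le hq) hbq).const_mul
      (C * K * D)
    simpa using this
  have h0 : dm E e x u = 0 := norm_le_zero_iff.mp (ge_of_tendsto' ht hb)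
  have hu0 : u = 0 := hinj x (h0.trans (map_zero _).symm)
  rw [hu0, add_zero] at hsu
  rw [← hsu]
  exact hs

/-- **Invariant frames split.** -/
theorem frame_split {e : M → F} {f : M ≃ₜ M} {Es Eu : M → Submodule ℝ E} {C a b Ls Lu K : ℝ}
    (h : EAnosov e f Es Eu C a b Ls Lu) (hinj : ∀ x, Function.Injective (dm E e x))
    (hang : ∀ x, ∀ s ∈ Es x, ∀ u ∈ Eu x,
      ‖dm E e x s‖ ≤ K * ‖dm E e x (s + u)‖ ∧ ‖dm E e x u‖ ≤ K * ‖dm E e x (s + u)‖)
    (hK : 0 ≤ K) {k : ℕ} (A : Matrix (Fin k) (Fin k) ℝ) (L : M → (Fin k → ℝ) →ₗ[ℝ] E) {D : ℝ}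
    (hD0 : 0 ≤ D) (hD : ∀ x v, ‖dm E e x (L x v)‖ ≤ D * ‖v‖)
    (hL : ∀ x v, dg E f x (L x v) = L (f x) (A.mulVec v)) (v : Fin k → ℝ) :
    ∃ vc vu : Fin k → ℝ, vc + vu = v ∧ ∀ x, L x vc ∈ Es x ∧ L x vu ∈ Eu x := by
  have hLn : ∀ (n : ℕ) (x : M) (v : Fin k → ℝ),
      dg E (f^[n]) x (L x v) = L (f^[n] x) ((A.mulVec)^[n] v) := by
    intro n
    induction n with
    | zero =>
      intro x v
      show mfderiv 𝓘(ℝ, E) 𝓘(ℝ, E) id x (L x v) = _
      rw [mfderiv_id]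
      rfl
    | succ n ih =>
      intro x v
      have h1 : f^[n + 1] = f^[n] ∘ f := rfl
      rw [h1, dg_comp f (f^[n]) h.smooth (iter_smooth f h.smooth n), hL, ih]
      rfl
  obtain ⟨δ, hδ, hbδ⟩ : ∃ δ > 0, b * (1 + δ) < 1 := by
    have h1 : Tendsto (fun δ : ℝ => b * (1 + δ)) (𝓝[>] 0) (𝓝 (b * (1 + 0))) := by
      have : Continuous fun δ : ℝ => b * (1 + δ) := by fun_prop
      exact (this.tendsto 0).mono_left nhdsWithin_le_nhds
    have h2 : b * (1 + 0) < 1 := by simpa using h.b_lt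
    obtain ⟨δ, hδ1, hδ2⟩ := (((tendsto_order.mp h1).2 1 h2).and self_mem_nhdsWithin).exists
    exact ⟨δ, hδ2, hδ1⟩
  obtain ⟨vc, vu, C', l, hC', hl0, hl1, hsum, hc, hu⟩ := real_split A δ hδ v
  refine ⟨vc, vu, hsum, fun x => ⟨?_, ?_⟩⟩
  · refine mem_s_of_slow h hinj hang hK (D := D * C') (q := 1 + δ) (by linarith) hbδ fun n => ?_
    rw [hLn]
    calc _ ≤ D * ‖(A.mulVec)^[n] vc‖ := hD _ _
      _ ≤ D * (C' * (1 + δ) ^ n) := mul_le_mul_of_nonneg_left (hc n) hD0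
      _ = _ := by ring
  · refine mem_s_of_slow h.symm hinj (fun x s hs u hu => ?_) hK (D := D * C') (q := 1) zero_le_one
      (by simpa using h.a_lt) fun n => ?_
    · have := hang x u hu s hs
      rw [add_comm u s] at this
      exact ⟨this.2, this.1⟩
    · obtain ⟨w, hw, hwn⟩ := hu n
      have h1 : L x vu = dg E (f^[n]) (f.symm^[n] x) (L (f.symm^[n] x) w) := by
        rw [hLn, hw, iter_right]
      have h2 : dg E (f.symm^[n]) x (L x vu) = L (f.symm^[n] x) w := by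
        rw [h1]
        have h3 := dg_inv (f^[n]) (f.symm^[n]) (iter_smooth f h.smooth n)
          (iter_smooth _ h.smooth' n) (iter_left f n) (f.symm^[n] x) (L (f.symm^[n] x) w)
        rw [iter_right] at h3
        exact h3
      rw [h2]
      calc _ ≤ D * ‖w‖ := hD _ _
        _ ≤ D * (C' * l ^ n) := mul_le_mul_of_nonneg_left hwn hD0
        _ ≤ D * (C' * 1) := by
            refine mul_le_mul_of_nonneg_left (mul_le_mul_of_nonneg_left ?_ hC') hD0
            exact pow_le_one₀ hl0 hl1.le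
        _ = _ := by ring

end Pool.Agent.H66.Fib
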