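import Pool.Agent.H66.Fib.Orb
import Pool.Agent.H66.Fib.Split
import Pool.Agent.H66.Fib.Dims
import Pool.Agent.H66.L.Tb0a926ef.R189.Sf1

/-!
# Smooth factors of Anosov diffeomorphisms: the main steps
-/

set_option autoImplicit false
set_option linter.unusedSectionVars false

open scoped Manifold ContDiff Topology Bundle
open Set Filter Bundle

namespace Pool.Agent.H66.Fib

open Pool.Agent.H721R2 Pool.Agent.H789R2.AN Pool.Agent.TH289 Pool.Agent.W5h13.LS

section top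

/-- recurrence properties -/
theorem rec_steps {X Y : Type*} [TopologicalSpace X] [TopologicalSpace Y] [ConnectedSpace Y]
    {f : X → X} {g : Y → Y} (hg : Continuous g) {h : X → Y} (hh : Continuous h)
    (hs : Function.Surjective h) (hfs : Function.Surjective f) (hfg : ∀ x, h (f x) = g (h x))
    (hlast : (∀ U : Set Y, IsOpen U → U.Nonempty → closure (g '' U) ⊆ U → U = univ) →
      TopTransitive f) :
    [TopTransitive f, TopTransitive g,
      ∀ U : Set Y, IsOpen U → U.Nonempty → ∃ n ≥ 1, (g^[n] '' U ∩ U).Nonempty,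
      ∀ U : Set Y, IsOpen U → U.Nonempty → closure (g '' U) ⊆ U → U = univ].TFAE := by
  have hfn : ∀ (n : ℕ) (x : X), h (f^[n] x) = g^[n] (h x) := by
    intro n
    induction n with
    | zero => intro z; rfl
    | succ n ih => intro z; rw [Function.iterate_succ_apply', hfg, ih, Function.iterate_succ_apply']
  have hgs : Function.Surjective g := by
    intro y
    obtain ⟨x, rfl⟩ := hs y
    obtain ⟨x', rfl⟩ := hfs x
    exact ⟨h x', (hfg x').symm⟩
  tfae_have 1 → 2 := by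
    intro ht U V hU hUn hV hVn
    obtain ⟨u, hu⟩ := hUn
    obtain ⟨v, hv⟩ := hVn
    obtain ⟨u', rfl⟩ := hs u
    obtain ⟨v', rfl⟩ := hs v
    obtain ⟨n, z, ⟨w, hw, rfl⟩, hz⟩ := ht (h ⁻¹' U) (h ⁻¹' V) (hU.preimage hh) ⟨u', hu⟩
      (hV.preimage hh) ⟨v', hv⟩
    exact ⟨n, _, ⟨h w, hw, rfl⟩, by rw [← hfn]; exact hz⟩
  tfae_have 2 → 3 := by
    intro ht U hU hUn
    obtain ⟨x, hx⟩ := hUn
    obtain ⟨y, rfl⟩ := hgs x
    obtain ⟨n, z, ⟨w, hw, rfl⟩, hz⟩ := ht U (g ⁻¹' U) hU ⟨_, hx⟩ (hU.preimage hg) ⟨y, hx⟩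
    refine ⟨n + 1, by omega, _, ⟨w, hw, rfl⟩, ?_⟩
    rw [Function.iterate_succ_apply']
    exact hz
  tfae_have 3 → 4 := by
    intro h3 U hU hne hc
    have hsub : U ⊆ closure (g '' U) := by
      intro x hx
      by_contra hxc
      obtain ⟨n, hn, y, ⟨z, hz, rfl⟩, hy⟩ := h3 (U ∩ (closure (g '' U))ᶜ)
        (hU.inter isClosed_closure.isOpen_compl) ⟨x, hx, hxc⟩
      have hiter : ∀ k : ℕ, g^[k] z ∈ U := by
        intro k
        induction k with
        | zero => exact hz.1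
        | succ k ih =>
          rw [Function.iterate_succ_apply']
          exact hc (subset_closure ⟨_, ih, rfl⟩)
      obtain ⟨k, rfl⟩ : ∃ k, n = k + 1 := ⟨n - 1, by omega⟩
      apply hy.2
      rw [Function.iterate_succ_apply']
      exact subset_closure ⟨_, hiter k, rfl⟩
    have h1 : U = closure (g '' U) := Subset.antisymm hsub hc
    have h2 : IsClopen U := ⟨h1 ▸ isClosed_closure, hU⟩
    exact h2.eq_univ hne
  tfae_have 4 → 1 := hlast
  tfae_finish

end top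

section het

variable {E : Type*} [NormedAddCommGroup E] [NormedSpace ℝ E] [FiniteDimensional ℝ E]
  {M : Type*} [TopologicalSpace M] [T2Space M] [CompactSpace M] [ConnectedSpace M]
  [ChartedSpace E M] [IsManifold 𝓘(ℝ, E) ∞ M]

theorem het_tfae (f : Diffeomorph 𝓘(ℝ, E) 𝓘(ℝ, E) M M 1)
    (Es Eu : ∀ x : M, Submodule ℝ (TangentSpace 𝓘(ℝ, E) x)) (hA : IsAnosov f Es Eu)
    {Y : Type*} [TopologicalSpace Y] [T2Space Y] {h : M → Y} (hh : Continuous h)
    (hs : Function.Surjective h) {g : Y → Y} (hg : Continuous g) (hfg : ∀ x, h (f x) = g (h x))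
    (hfib : ∀ x y, h x = h y → ∃ z, Asym f.symm x z ∧ Asym f y z) :
    [TopTransitive f, TopTransitive g,
      ∀ U : Set Y, IsOpen U → U.Nonempty → ∃ n ≥ 1, (g^[n] '' U ∩ U).Nonempty,
      ∀ U : Set Y, IsOpen U → U.Nonempty → closure (g '' U) ⊆ U → U = univ].TFAE := by
  have hcon : ConnectedSpace Y := hs.connectedSpace hh
  exact rec_steps hg hh hs f.surjective hfg
    (het_trans f Es Eu hA hh hs hg hfg hfib)

/-- the linear splitting for a normalised action -/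
theorem act_split (f : Diffeomorph 𝓘(ℝ, E) 𝓘(ℝ, E) M M 1)
    (Es Eu : ∀ x : M, Submodule ℝ (TangentSpace 𝓘(ℝ, E) x)) (hA : IsAnosov f Es Eu)
    {k : ℕ} {R : (Fin k → ℝ) → M → M} (hR : IsAct E R) {A : Matrix (Fin k) (Fin k) ℝ}
    (hfR : ∀ v x, f (R v x) = R (A.mulVec v) (f x)) (v : Fin k → ℝ) :
    ∃ vc vu : Fin k → ℝ, vc + vu = v ∧ ∀ x, inf E R x vc ∈ Es x ∧ inf E R x vu ∈ Eu x := by
  obtain ⟨m, e, he, hemb, hinj⟩ := exists_embedding_euclidean_of_compact (I := 𝓘(ℝ, E)) (M := M)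
  let _ : MetricSpace M := hemb.isEmbedding.comapMetricSpace e
  have he1 : ContMDiff 𝓘(ℝ, E) (𝓡 m) 1 e := he.of_le (by simp)
  obtain ⟨C', a, b, Ls, Lu, hE⟩ := eanosov_of_isAnosov e he1 hinj f Es Eu hA
  obtain ⟨K, hK, hang⟩ := hE.angle he1 hinj
  obtain ⟨D, hD0, hD⟩ := hR.bound e he1
  exact frame_split hE hinj hang (by linarith) A (fun x => (inf E R x).toLinearMap) hD0 hD
    (fun x v => hR.equi f.contMDiff hfR x v) v

theorem act_het (f : Diffeomorph 𝓘(ℝ, E) 𝓘(ℝ, E) M M 1)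
    (Es Eu : ∀ x : M, Submodule ℝ (TangentSpace 𝓘(ℝ, E) x)) (hA : IsAnosov f Es Eu)
    {k : ℕ} {R : (Fin k → ℝ) → M → M} (hR : IsAct E R) {A : Matrix (Fin k) (Fin k) ℝ}
    (hfR : ∀ v x, f (R v x) = R (A.mulVec v) (f x)) (v : Fin k → ℝ) (x : M) :
    ∃ z, Asym f.symm x z ∧ Asym f (R v x) z := by
  obtain ⟨vc, vu, hsum, hv⟩ := act_split f Es Eu hA hR hfR v
  obtain ⟨m, e, he, hemb, hinj⟩ := exists_embedding_euclidean_of_compact (I := 𝓘(ℝ, E)) (M := M)
  let _ : MetricSpace M := hemb.isEmbedding.comapMetricSpace e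
  have hiso : ∀ x y : M, dist x y = ‖e x - e y‖ := fun x y => dist_eq_norm (e x) (e y)
  have he1 : ContMDiff 𝓘(ℝ, E) (𝓡 m) 1 e := he.of_le (by simp)
  obtain ⟨C', a, b, Ls, Lu, hE⟩ := eanosov_of_isAnosov e he1 hinj f Es Eu hA
  refine ⟨R vu x, ?_, ?_⟩
  · exact hR.asym he1 hiso hE.symm (fun y => (hv y).2) x
  · have h1 := hR.asym he1 hiso hE (fun y => (hv y).1) (R vu x)
    rw [← hR.add, hsum] at h1
    have h2 : Asym f.toHomeomorph (R vu x) (R v x) := h1
    have h3 : Asym f.toHomeomorph (R v x) (R vu x) := by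
      rw [asym_iff] at h2 ⊢
      exact h2.symm'
    exact h3

end het

section vert

variable {E : Type*} [NormedAddCommGroup E] [NormedSpace ℝ E] [FiniteDimensional ℝ E]
  {M : Type*} [TopologicalSpace M] [T2Space M] [CompactSpace M]
  [ChartedSpace E M] [IsManifold 𝓘(ℝ, E) ∞ M]
  {E' : Type*} [NormedAddCommGroup E'] [NormedSpace ℝ E'] [FiniteDimensional ℝ E']
  {B : Type*} [TopologicalSpace B] [T2Space B] [CompactSpace B] [ChartedSpace E' B]
  [IsManifold 𝓘(ℝ, E') ∞ B]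

/-- sections of the tangent bundle, read in the model space -/
theorem frame_aux {k : ℕ} {f : M → M} (A : Matrix (Fin k) (Fin k) ℝ) (X : Fin k → M → E)
    (hinv : ∀ i x, dg E f x (X i x) = ∑ j, A j i • X j (f x)) (x : M) (c : Fin k → ℝ) :
    dg E f x (Fintype.linearCombination ℝ (fun i => X i x) c) =
      Fintype.linearCombination ℝ (fun i => X i (f x)) (A.mulVec c) := by
  rw [Fintype.linearCombination_apply, Fintype.linearCombination_apply, map_sum]
  have h1 : ∀ i, dg E f x (c i • X i x) = ∑ j, (c i * A j i) • X j (f x) := by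
    intro i
    rw [map_smul, hinv, Finset.smul_sum]
    exact Finset.sum_congr rfl fun j _ => by rw [smul_smul]
  rw [Finset.sum_congr rfl fun i _ => h1 i, Finset.sum_comm]
  refine Finset.sum_congr rfl fun j _ => ?_
  rw [← Finset.sum_smul]
  congr 1
  exact Finset.sum_congr rfl fun i _ => mul_comm _ _

theorem frame_bound {k : ℕ} {F : Type*} [NormedAddCommGroup F] [NormedSpace ℝ F] (e : M → F)
    (X : Fin k → M → E) (D : Fin k → ℝ) (hD0 : ∀ i, 0 ≤ D i)
    (hD : ∀ i x, ‖dm E e x (X i x)‖ ≤ D i) (x : M) (c : Fin k → ℝ) :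
    ‖dm E e x (Fintype.linearCombination ℝ (fun i => X i x) c)‖ ≤ (∑ i, D i) * ‖c‖ := by
  rw [Fintype.linearCombination_apply, map_sum, Finset.sum_mul]
  refine (norm_sum_le _ _).trans (Finset.sum_le_sum fun i _ => ?_)
  rw [map_smul, norm_smul, mul_comm]
  exact mul_le_mul (hD i x) (norm_le_pi_norm c i) (norm_nonneg _) (hD0 i)

/-- parallel vertical bundles split -/
theorem frame_vsplit (f : Diffeomorph 𝓘(ℝ, E) 𝓘(ℝ, E) M M 1)
    (Es Eu : ∀ x : M, Submodule ℝ (TangentSpace 𝓘(ℝ, E) x)) (hA : IsAnosov f Es Eu)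
    (p : M → B) {k : ℕ} (A : Matrix (Fin k) (Fin k) ℝ)
    (X : Fin k → ∀ x : M, TangentSpace 𝓘(ℝ, E) x)
    (hX : ∀ i, Continuous fun x => (⟨x, X i x⟩ : TangentBundle 𝓘(ℝ, E) M))
    (hspan : ∀ (x : M) (v : TangentSpace 𝓘(ℝ, E) x),
      mfderiv 𝓘(ℝ, E) 𝓘(ℝ, E') p x v = 0 ↔ v ∈ Submodule.span ℝ (range fun i => X i x))
    (hinv : ∀ i x, mfderiv 𝓘(ℝ, E) 𝓘(ℝ, E) f x (X i x) = ∑ j, A j i • X j (f x)) :
    VSplit E E' p Es Eu := by
  obtain ⟨m, e, he, hemb, hinj⟩ := exists_embedding_euclidean_of_compact (I := 𝓘(ℝ, E)) (M := M)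
  let _ : MetricSpace M := hemb.isEmbedding.comapMetricSpace e
  have he1 : ContMDiff 𝓘(ℝ, E) (𝓡 m) 1 e := he.of_le (by simp)
  obtain ⟨C', a, b, Ls, Lu, hE⟩ := eanosov_of_isAnosov e he1 hinj f Es Eu hA
  obtain ⟨K, hK, hang⟩ := hE.angle he1 hinj
  have hb : ∀ i, ∃ D : ℝ, 0 ≤ D ∧ ∀ x, ‖dm E e x (X i x)‖ ≤ D := by
    intro i
    have h0 := (emb_tnorm e he1 hinj).continuous
    have h1 := h0.comp (hX i)
    obtain ⟨D, hD⟩ := isCompact_univ.bddAbove_image h1.continuousOn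
    refine ⟨max D 0, le_max_right _ _, fun x => ?_⟩
    have h2 := hD ⟨x, mem_univ x, rfl⟩
    exact le_trans h2 (le_max_left _ _)
  choose D hD0 hD using hb
  let X' : Fin k → M → E := fun i x => X i x
  have hmem : ∀ x c, mfderiv 𝓘(ℝ, E) 𝓘(ℝ, E') p x
      (Fintype.linearCombination ℝ (fun i => X' i x) c) = 0 := by
    intro x c
    have h1 : Fintype.linearCombination ℝ (fun i => X' i x) c ∈
        Submodule.span ℝ (range fun i => X' i x) := by
      rw [Submodule.mem_span_range_iff_exists_fun]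
      exact ⟨c, (Fintype.linearCombination_apply ℝ (fun i => X' i x) c).symm⟩
    exact (hspan x _).mpr h1
  intro x v hv
  rw [hspan, Submodule.mem_span_range_iff_exists_fun] at hv
  obtain ⟨c, hc⟩ := hv
  obtain ⟨vc, vu, hsum, hcu⟩ := frame_split hE hinj hang (by linarith) A
    (fun x => Fintype.linearCombination ℝ (fun i => X' i x))
    (Finset.sum_nonneg fun i _ => hD0 i) (frame_bound e X' D hD0 hD)
    (frame_aux A X' hinv) c
  refine ⟨_, (hcu x).1, _, (hcu x).2, hmem x vc, hmem x vu, ?_⟩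
  have h1 : Fintype.linearCombination ℝ (fun i => X' i x) vc +
      Fintype.linearCombination ℝ (fun i => X' i x) vu =
      Fintype.linearCombination ℝ (fun i => X' i x) c := by
    rw [← map_add, hsum]
  refine h1.trans ?_
  rw [Fintype.linearCombination_apply]
  exact hc

/-- vertical bundles given by normalised actions split -/
theorem act_vsplit [ConnectedSpace M] (f : Diffeomorph 𝓘(ℝ, E) 𝓘(ℝ, E) M M 1)
    (Es Eu : ∀ x : M, Submodule ℝ (TangentSpace 𝓘(ℝ, E) x)) (hA : IsAnosov f Es Eu)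
    (p : M → B) (hp : ContMDiff 𝓘(ℝ, E) 𝓘(ℝ, E') 1 p)
    {k : ℕ} {R : (Fin k → ℝ) → M → M} (hR : IsAct E R) {A : Matrix (Fin k) (Fin k) ℝ}
    (hfR : ∀ v x, f (R v x) = R (A.mulVec v) (f x)) (hpR : ∀ v x, p (R v x) = p x)
    (hker : ∀ (x : M) (w : TangentSpace 𝓘(ℝ, E) x), mfderiv 𝓘(ℝ, E) 𝓘(ℝ, E') p x w = 0 →
      ∃ v, inf E R x v = w) :
    VSplit E E' p Es Eu := by
  have hmem : ∀ x v, mfderiv 𝓘(ℝ, E) 𝓘(ℝ, E') p x (inf E R x v) = 0 := by
    intro x v
    have h1 : HasMFDerivAt 𝓘(ℝ, Fin k → ℝ) 𝓘(ℝ, E) (fun v => R v x) 0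
        (mfderiv 𝓘(ℝ, Fin k → ℝ) 𝓘(ℝ, E) (fun v => R v x) 0) :=
      ((hR.smooth_orb x).mdifferentiableAt (by norm_num)).hasMFDerivAt
    have h2 : HasMFDerivAt 𝓘(ℝ, E) 𝓘(ℝ, E') p (R 0 x) (mfderiv 𝓘(ℝ, E) 𝓘(ℝ, E') p (R 0 x)) :=
      (hp.mdifferentiableAt (by norm_num)).hasMFDerivAt
    have h3 := h2.comp (0 : Fin k → ℝ) h1
    have h4 : (p ∘ fun v => R v x) = fun _ => p x := by
      funext v
      exact hpR v x
    have h5 : (mfderiv 𝓘(ℝ, Fin k → ℝ) 𝓘(ℝ, E') (p ∘ fun v => R v x) 0 : (Fin k → ℝ) → E') v =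
        0 := by
      rw [h4, mfderiv_const]
      rfl
    rw [h3.mfderiv] at h5
    have h6 : di E E' p (R 0 x) (inf E R x v) = 0 := h5
    have h7 : di E E' p (R 0 x) = di E E' p x := by rw [hR.zero]
    rw [h7] at h6
    exact h6
  intro x w hw
  obtain ⟨v, rfl⟩ := hker x w hw
  obtain ⟨vc, vu, hsum, hv⟩ := act_split f Es Eu hA hR hfR v
  refine ⟨_, (hv x).1, _, (hv x).2, hmem x vc, hmem x vu, ?_⟩
  rw [← hsum]
  exact (map_add (inf E R x) vc vu).symm

end vert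

end Pool.Agent.H66.Fib
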