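import Pool.Agent.H66.Fib.Split
import Pool.Agent.H66.L.Tb0a926ef.R189.Fb1

/-!
# Invariant bundles split over limit sets
-/

set_option autoImplicit false
set_option linter.unusedSectionVars false

open scoped Manifold ContDiff Topology
open Set Filter

namespace Pool.Agent.H66.Fib

open Pool.Agent.H721R2 Pool.Agent.R189.Fb

section lin

/-- bounded lifts -/
theorem lift_bound {E F : Type*} [NormedAddCommGroup E] [NormedSpace ℝ E] [FiniteDimensional ℝ E]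
    [NormedAddCommGroup F] [NormedSpace ℝ F] (S U V : Submodule ℝ E) (T : E →L[ℝ] F)
    (hT : Function.Injective T) :
    ∃ c : ℝ, 0 ≤ c ∧ ∀ s ∈ S, ∀ u ∈ U, s + u ∈ V → ∃ s₀ ∈ S, s - s₀ ∈ V ∧
      ‖T s₀‖ ≤ c * ‖T u‖ := by
  let P : Submodule ℝ (E × E) :=
    (S.prod U) ⊓ V.comap (LinearMap.coprod (LinearMap.id : E →ₗ[ℝ] E) LinearMap.id)
  have hP : ∀ s u : E, (s, u) ∈ P ↔ (s ∈ S ∧ u ∈ U) ∧ s + u ∈ V := by
    intro s u
    simp [P]
  let f : P →ₗ[ℝ] E := (LinearMap.snd ℝ E E).domRestrict P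
  obtain ⟨g, hg⟩ := f.rangeRestrict.exists_rightInverse_of_surjective f.range_rangeRestrict
  obtain ⟨K, hK, hKT⟩ := LinearMap.exists_antilipschitzWith T.toLinearMap
    (LinearMap.ker_eq_bot.mpr hT)
  have hanti : ∀ u, ‖u‖ ≤ K * ‖T u‖ := fun u => by
    have := hKT.le_mul_dist u 0
    simpa using this
  set G := LinearMap.toContinuousLinearMap g with hG
  refine ⟨‖T‖ * (‖G‖ * K), by positivity, fun s hs u hu hsu => ?_⟩
  have hmem : ((s, u) : E × E) ∈ P := (hP s u).mpr ⟨⟨hs, hu⟩, hsu⟩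
  have hur : f ⟨(s, u), hmem⟩ ∈ LinearMap.range f := ⟨_, rfl⟩
  set q := g ⟨f ⟨(s, u), hmem⟩, hur⟩ with hq
  have hq2 : f q = u := by
    have h1 : f.rangeRestrict q = ⟨f ⟨(s, u), hmem⟩, hur⟩ := by
      have := LinearMap.congr_fun hg ⟨f ⟨(s, u), hmem⟩, hur⟩
      exact this
    have h2 := congrArg Subtype.val h1
    exact h2
  obtain ⟨s₀, u₀, hq3, hq'⟩ : ∃ s₀ u₀, ∃ h : ((s₀, u₀) : E × E) ∈ P, q = ⟨(s₀, u₀), h⟩ :=
    ⟨q.1.1, q.1.2, q.2, rfl⟩
  have hu0 : u₀ = u := by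
    rw [hq'] at hq2
    exact hq2
  have hs0 := (hP s₀ u₀).mp hq3
  refine ⟨s₀, hs0.1.1, ?_, ?_⟩
  · have h1 : s - s₀ = (s + u) - (s₀ + u₀) := by rw [hu0]; abel
    rw [h1]
    exact V.sub_mem hsu hs0.2
  · have h1 : ‖s₀‖ ≤ ‖G‖ * ‖u‖ := by
      have h2 : ‖q‖ ≤ ‖G‖ * ‖(⟨f ⟨(s, u), hmem⟩, hur⟩ : LinearMap.range f)‖ := G.le_opNorm _
      have h3 : ‖(⟨f ⟨(s, u), hmem⟩, hur⟩ : LinearMap.range f)‖ = ‖u‖ := rfl
      have h4 : ‖s₀‖ ≤ ‖q‖ := by
        rw [hq']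
        exact norm_fst_le ((s₀, u₀) : E × E)
      rw [h3] at h2
      exact h4.trans h2
    calc ‖T s₀‖ ≤ ‖T‖ * ‖s₀‖ := T.le_opNorm _
      _ ≤ ‖T‖ * (‖G‖ * (K * ‖T u‖)) := by
          refine mul_le_mul_of_nonneg_left (h1.trans ?_) (norm_nonneg _)
          exact mul_le_mul_of_nonneg_left (hanti u) (ContinuousLinearMap.opNorm_nonneg G)
      _ = _ := by ring

end lin

section omega

variable {E : Type*} [NormedAddCommGroup E] [NormedSpace ℝ E] [FiniteDimensional ℝ E]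
  {M : Type*} [MetricSpace M] [CompactSpace M] [ChartedSpace E M] [IsManifold 𝓘(ℝ, E) 1 M]
  {F : Type*} [NormedAddCommGroup F] [NormedSpace ℝ F]
  {F' : Type*} [NormedAddCommGroup F'] [NormedSpace ℝ F']

/-- the defect tends to zero along orbits -/
theorem defect_orbit {e : M → F} (hinj : ∀ x, Function.Injective (dm E e x))
    {f : M ≃ₜ M} {Es Eu : M → Submodule ℝ E} {C a b Ls Lu K R : ℝ}
    (hE : EAnosov e f Es Eu C a b Ls Lu)
    (hang : ∀ x, ∀ s ∈ Es x, ∀ u ∈ Eu x,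
      ‖dm E e x s‖ ≤ K * ‖dm E e x (s + u)‖ ∧ ‖dm E e x u‖ ≤ K * ‖dm E e x (s + u)‖)
    (hK : 0 ≤ K) (hR : 0 ≤ R) {h : M → F'} (hRv : ∀ x v, ‖dm E h x v‖ ≤ R * ‖dm E e x v‖)
    (hV : ∀ (n : ℕ) x v, dm E h (f^[n] x) (dg E (f^[n]) x v) = 0 ↔ dm E h x v = 0) (x : M) :
    ∃ c : ℝ, 0 ≤ c ∧ ∀ n : ℕ, ∀ s ∈ Es (f^[n] x), ∀ u ∈ Eu (f^[n] x),
      dm E h (f^[n] x) (s + u) = 0 →
      ‖dm E h (f^[n] x) s‖ ≤ c * (a * b) ^ n * ‖dm E e (f^[n] x) (s + u)‖ := by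
  obtain ⟨c, hc, hlift⟩ := lift_bound (Es x) (Eu x) (LinearMap.ker (dm E h x).toLinearMap)
    (dm E e x) (hinj x)
  have hC := hE.C_pos
  have ha := hE.a_pos
  have hb := hE.b_pos
  refine ⟨R * C * c * C * K, by positivity, fun n s hs u hu hsu => ?_⟩
  -- pull back
  have hback : ∀ v, dg E (f^[n]) x (dg E (f.symm^[n]) (f^[n] x) v) = v := by
    intro v
    have h1 := dg_inv (f.symm^[n]) (f^[n]) (iter_smooth _ hE.smooth' n) (iter_smooth f hE.smooth n)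
      (iter_right f n) (f^[n] x) v
    rw [iter_left] at h1
    exact h1
  set s' := dg E (f.symm^[n]) (f^[n] x) s with hs'
  set u' := dg E (f.symm^[n]) (f^[n] x) u with hu'
  have h1 : s' ∈ Es x := by
    have := hE.mapS' n (f^[n] x) s hs
    rwa [iter_left] at this
  have h2 : u' ∈ Eu x := by
    have := hE.mapU' n (f^[n] x) u hu
    rwa [iter_left] at this
  have h3 : dm E h x (s' + u') = 0 := by
    rw [← hV n, map_add, hback, hback]
    exact hsu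
  obtain ⟨s₀, hs₀, h4, h5⟩ := hlift s' h1 u' h2 h3
  have h6 : dm E h (f^[n] x) s = dm E h (f^[n] x) (dg E (f^[n]) x s₀) := by
    have h7 : dm E h (f^[n] x) (dg E (f^[n]) x (s' - s₀)) = 0 := (hV n x _).mpr h4
    rw [map_sub, map_sub, hback, sub_eq_zero] at h7
    exact h7
  have h8 : ‖dm E e x u'‖ ≤ C * b ^ n * ‖dm E e (f^[n] x) u‖ := by
    have := hE.hU' n (f^[n] x) u hu
    rwa [iter_left] at this
  rw [h6]
  calc _ ≤ R * ‖dm E e (f^[n] x) (dg E (f^[n]) x s₀)‖ := hRv _ _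
    _ ≤ R * (C * a ^ n * ‖dm E e x s₀‖) := mul_le_mul_of_nonneg_left (hE.hS n x s₀ hs₀) hR
    _ ≤ R * (C * a ^ n * (c * (C * b ^ n * (K * ‖dm E e (f^[n] x) (s + u)‖)))) := by
        refine mul_le_mul_of_nonneg_left (mul_le_mul_of_nonneg_left (h5.trans ?_) (by positivity)) hR
        refine mul_le_mul_of_nonneg_left (h8.trans ?_) hc
        exact mul_le_mul_of_nonneg_left (hang _ s hs u hu).2 (by positivity)
    _ = _ := by rw [mul_pow]; ring

/-- **The vertical bundle splits at the points of limit sets.** -/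
theorem omega_split {e : M → F} (he : ContMDiff 𝓘(ℝ, E) 𝓘(ℝ, F) 1 e)
    (hinj : ∀ x, Function.Injective (dm E e x))
    {f : M ≃ₜ M} {Es Eu : M → Submodule ℝ E} {C a b Ls Lu K R K₀ : ℝ}
    (hE : EAnosov e f Es Eu C a b Ls Lu)
    (hang : ∀ x, ∀ s ∈ Es x, ∀ u ∈ Eu x,
      ‖dm E e x s‖ ≤ K * ‖dm E e x (s + u)‖ ∧ ‖dm E e x u‖ ≤ K * ‖dm E e x (s + u)‖)
    (hK : 0 ≤ K) (hR : 0 ≤ R) {h : M → F'} (hh : ContMDiff 𝓘(ℝ, E) 𝓘(ℝ, F') 1 h)
    (hRv : ∀ x v, ‖dm E h x v‖ ≤ R * ‖dm E e x v‖)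
    (hK₀ : 0 ≤ K₀) (hker : ∀ x, ∀ v : E, ∃ v', dm E h x v' = 0 ∧
      ‖dm E e x (v - v')‖ ≤ K₀ * ‖dm E h x v‖)
    (hV : ∀ (n : ℕ) x v, dm E h (f^[n] x) (dg E (f^[n]) x v) = 0 ↔ dm E h x v = 0) {x y : M}
    (hxy : ∀ U ∈ 𝓝 y, ∃ᶠ n : ℕ in atTop, f^[n] x ∈ U) {s u : E} (hs : s ∈ Es y) (hu : u ∈ Eu y)
    (hsu : dm E h y (s + u) = 0) : dm E h y s = 0 := by
  obtain ⟨c, hc, horb⟩ := defect_orbit hinj hE hang hK hR hRv hV x
  have ha := hE.a_pos
  have hb := hE.b_pos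
  set T := ‖dm E e y s‖ + ‖dm E e y u‖ + ‖dm E e y (s + u)‖ with hTdef
  have hT0 : 0 ≤ T := by positivity
  set Q := 1 + 2 * R + (3 + K₀) + R * K * (2 + K₀) with hQ
  have hQ0 : 0 ≤ Q := by positivity
  have key : ∀ η : ℝ, 0 < η → η ≤ 1 → ‖dm E h y s‖ ≤ Q * T * η := by
    intro η hη hη1
    obtain ⟨-, hloc⟩ := local_all e he hinj h hh y
    obtain ⟨W, hW, -, -, -, -, hW3⟩ := hloc η hη
    obtain ⟨r₁, hr₁, hS⟩ := hE.contS he hinj η hη
    obtain ⟨r₂, hr₂, hU⟩ := hE.symm.contS he hinj η hη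
    have hlim : Tendsto (fun n : ℕ => c * (a * b) ^ n) atTop (𝓝 0) := by
      have h1 : a * b < 1 := by nlinarith [hE.a_lt, hE.b_lt]
      have := (tendsto_pow_atTop_nhds_zero_of_lt_one (by positivity) h1).const_mul c
      simpa using this
    have hnb : W ∩ (Metric.ball y r₁ ∩ Metric.ball y r₂) ∈ 𝓝 y :=
      inter_mem hW (inter_mem (Metric.ball_mem_nhds y hr₁) (Metric.ball_mem_nhds y hr₂))
    obtain ⟨n, ⟨hnW, hn1, hn2⟩, hnη⟩ :=
      ((hxy _ hnb).and_eventually ((tendsto_order.mp hlim).2 η hη)).exists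
    set z := f^[n] x with hz
    rw [Metric.mem_ball, dist_comm] at hn1 hn2
    obtain ⟨s₁, hs₁, es₁⟩ := hS y z hn1 s hs
    obtain ⟨u₁, hu₁, eu₁⟩ := hU y z hn2 u hu
    obtain ⟨w, hw1, hw2⟩ := hW3 y (mem_of_mem_nhds hW) z hnW (s + u)
    obtain ⟨t, ht1, ht2⟩ := hW3 y (mem_of_mem_nhds hW) z hnW s
    obtain ⟨w', hw'0, hw'⟩ := hker z w
    obtain ⟨s₂, hs₂, u₂, hu₂, hsu₂⟩ := hE.decomp z w'
    have p1 := norm_nonneg (dm E e y s)
    have p2 := norm_nonneg (dm E e y u)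
    have p3 := norm_nonneg (dm E e y (s + u))
    -- closeness of `w'`
    have q1 : ‖dm E h z w‖ ≤ η * ‖dm E e y (s + u)‖ := by
      rw [hsu, zero_sub, norm_neg] at hw2
      exact hw2
    have q2 : ‖dm E e z (w - w')‖ ≤ K₀ * (η * ‖dm E e y (s + u)‖) :=
      hw'.trans (mul_le_mul_of_nonneg_left q1 hK₀)
    have q3 : ‖dm E e y (s + u) - dm E e z w'‖ ≤ (1 + K₀) * (η * ‖dm E e y (s + u)‖) := by
      have : dm E e y (s + u) - dm E e z w' = (dm E e y (s + u) - dm E e z w) +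
          dm E e z (w - w') := by rw [map_sub]; abel
      rw [this]
      refine (norm_add_le _ _).trans ?_
      linarith
    have q4 : ‖dm E e z w'‖ ≤ ‖dm E e y (s + u)‖ + (1 + K₀) * (η * ‖dm E e y (s + u)‖) := by
      have := norm_sub_le (dm E e y (s + u)) (dm E e y (s + u) - dm E e z w')
      rw [sub_sub_cancel] at this
      linarith
    -- the defect at `z`
    have q5 : ‖dm E h z s₂‖ ≤ η * ‖dm E e z w'‖ := by
      have h1 := horb n s₂ hs₂ u₂ hu₂ (by rw [hsu₂]; exact hw'0)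
      rw [hsu₂] at h1
      exact h1.trans (mul_le_mul_of_nonneg_right hnη.le (norm_nonneg _))
    -- comparison of `s₁` and `s₂`
    have q6 : ‖dm E e z ((s₁ - s₂) + (u₁ - u₂))‖ ≤ (2 + K₀) * (η * T) := by
      have : dm E e z ((s₁ - s₂) + (u₁ - u₂)) = -(dm E e y s - dm E e z s₁) -
          (dm E e y u - dm E e z u₁) + (dm E e y (s + u) - dm E e z w') := by
        rw [← hsu₂]
        simp only [map_add, map_sub]
        abel
      rw [this]
      refine (norm_add_le _ _).trans ?_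
      have h1 := norm_sub_le (-(dm E e y s - dm E e z s₁)) (dm E e y u - dm E e z u₁)
      rw [norm_neg] at h1
      have h2 : (1 + K₀) * (η * ‖dm E e y (s + u)‖) ≤ (1 + K₀) * (η * T) :=
        mul_le_mul_of_nonneg_left (mul_le_mul_of_nonneg_left (by rw [hTdef]; linarith) hη.le)
          (by linarith)
      have h3 : η * ‖dm E e y s‖ + η * ‖dm E e y u‖ ≤ η * T := by
        rw [← mul_add]
        exact mul_le_mul_of_nonneg_left (by rw [hTdef]; linarith) hη.le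
      have h4 : (2 + K₀) * (η * T) = (1 + K₀) * (η * T) + η * T := by ring
      linarith
    have q7 : ‖dm E e z (s₁ - s₂)‖ ≤ K * ((2 + K₀) * (η * T)) :=
      (hang z _ ((Es z).sub_mem hs₁ hs₂) _ ((Eu z).sub_mem hu₁ hu₂)).1.trans
        (mul_le_mul_of_nonneg_left q6 hK)
    have q8 : ‖dm E h z (s₁ - s₂)‖ ≤ R * (K * ((2 + K₀) * (η * T))) :=
      (hRv _ _).trans (mul_le_mul_of_nonneg_left q7 hR)
    have q9 : ‖dm E e z (t - s₁)‖ ≤ 2 * (η * T) := by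
      have : dm E e z (t - s₁) = (dm E e y s - dm E e z s₁) - (dm E e y s - dm E e z t) := by
        rw [map_sub]; abel
      rw [this]
      refine (norm_sub_le _ _).trans ?_
      have h3 : η * ‖dm E e y s‖ ≤ η * T :=
        mul_le_mul_of_nonneg_left (by rw [hTdef]; linarith) hη.le
      linarith
    have q10 : ‖dm E h z (t - s₁)‖ ≤ R * (2 * (η * T)) :=
      (hRv _ _).trans (mul_le_mul_of_nonneg_left q9 hR)
    have q11 : dm E h y s = (dm E h y s - dm E h z t) + dm E h z (t - s₁) +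
        dm E h z (s₁ - s₂) + dm E h z s₂ := by
      simp only [map_sub]; abel
    have q12 : ‖dm E h y s‖ ≤ ‖dm E h y s - dm E h z t‖ + ‖dm E h z (t - s₁)‖ +
        ‖dm E h z (s₁ - s₂)‖ + ‖dm E h z s₂‖ := by
      conv_lhs => rw [q11]
      refine (norm_add_le _ _).trans (add_le_add_left ?_ _ )
      refine (norm_add_le _ _).trans (add_le_add_left ?_ _)
      exact norm_add_le _ _
    have q13 : η * ‖dm E e z w'‖ ≤ (3 + K₀) * (η * T) := by
      have h3 : ‖dm E e y (s + u)‖ ≤ T := by rw [hTdef]; linarith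
      have h4 : η * ‖dm E e y (s + u)‖ ≤ T := by
        calc _ ≤ 1 * T := mul_le_mul hη1 h3 p3 zero_le_one
          _ = T := one_mul T
      have h5 : (1 + K₀) * (η * ‖dm E e y (s + u)‖) ≤ (1 + K₀) * T :=
        mul_le_mul_of_nonneg_left h4 (by linarith)
      calc _ ≤ η * ((3 + K₀) * T) := by
            refine mul_le_mul_of_nonneg_left ?_ hη.le
            have h6 : (3 + K₀) * T = T + (1 + K₀) * T + T := by ring
            linarith
        _ = _ := by ring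
    have q14 : η * ‖dm E e y s‖ ≤ η * T :=
      mul_le_mul_of_nonneg_left (by rw [hTdef]; linarith) hη.le
    calc _ ≤ _ := q12
      _ ≤ η * T + R * (2 * (η * T)) + R * (K * ((2 + K₀) * (η * T))) + (3 + K₀) * (η * T) := by
          linarith
      _ = Q * T * η := by rw [hQ]; ring
  have h0 : ‖dm E h y s‖ ≤ 0 := by
    refine ge_of_tendsto (x := 𝓝[>] (0 : ℝ)) (f := fun η : ℝ => Q * T * η) ?_ ?_
    · have : Tendsto (fun η : ℝ => Q * T * η) (𝓝 0) (𝓝 (Q * T * 0)) :=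
        (continuous_const.mul continuous_id).tendsto 0
      rw [mul_zero] at this
      exact this.mono_left nhdsWithin_le_nhds
    · have h1 : ∀ᶠ η : ℝ in 𝓝[>] 0, η ∈ Ioc (0:ℝ) 1 := Ioc_mem_nhdsGT zero_lt_one
      filter_upwards [h1] with η hη
      exact key η hη.1 hη.2
  exact norm_le_zero_iff.mp h0

end omega

end Pool.Agent.H66.Fib
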