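import Pool.Agent.H66.Fib.Omega
import Pool.Agent.H66.Fib.Main

/-!
# Transitive Anosov diffeomorphisms: smooth factors are Anosov
-/

set_option autoImplicit false
set_option linter.unusedSectionVars false

open scoped Manifold ContDiff Topology Bundle
open Set Filter Bundle

namespace Pool.Agent.H66.Fib

open Pool.Agent.H721R2 Pool.Agent.H789R2.AN Pool.Agent.R189.Fb

section top

/-- a point whose forward orbit returns to every open set infinitely often -/
theorem exists_omega_dense {X : Type*} [TopologicalSpace X] [BaireSpace X] [Nonempty X]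
    [SecondCountableTopology X] (f : X ≃ₜ X) (hf : TopTransitive f) :
    ∃ x, ∀ U : Set X, IsOpen U → U.Nonempty → ∃ᶠ n : ℕ in atTop, f^[n] x ∈ U := by
  have h1 : ∀ (V U : Set X), IsOpen V → V.Nonempty → IsOpen U → U.Nonempty → ∀ N : ℕ,
      ∃ n ≥ N, ∃ x ∈ V, f^[n] x ∈ U := by
    intro V U hV hVn hU hUn N
    obtain ⟨u, hu⟩ := hUn
    obtain ⟨u', hu'⟩ := (f.surjective.iterate N) u
    obtain ⟨n, z, ⟨w, hw, rfl⟩, hz⟩ := hf V (f^[N] ⁻¹' U) hV hVn
      (hU.preimage (f.continuous.iterate N)) ⟨u', by rw [mem_preimage, hu']; exact hu⟩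
    refine ⟨N + n, Nat.le_add_right N n, w, hw, ?_⟩
    rw [Function.iterate_add_apply]
    exact hz
  set O : (TopologicalSpace.countableBasis X) × ℕ → Set X := fun i =>
    ⋃ n ≥ i.2, f^[n] ⁻¹' i.1.1 with hO
  have hOo : ∀ i, IsOpen (O i) := fun i => isOpen_biUnion fun n _ =>
    (TopologicalSpace.isOpen_of_mem_countableBasis i.1.2).preimage (f.continuous.iterate n)
  have hOd : ∀ i, Dense (O i) := by
    intro i
    rw [dense_iff_inter_open]
    intro V hV hVn
    obtain ⟨n, hn, x, hx, hxn⟩ := h1 V i.1.1 hV hVn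
      (TopologicalSpace.isOpen_of_mem_countableBasis i.1.2)
      (TopologicalSpace.nonempty_of_mem_countableBasis i.1.2) i.2
    exact ⟨x, hx, mem_biUnion hn hxn⟩
  have hd := dense_iInter_of_isOpen hOo hOd
  obtain ⟨x, hx⟩ := hd.nonempty
  refine ⟨x, fun U hU hUn => ?_⟩
  obtain ⟨u, hu⟩ := hUn
  obtain ⟨b, hb, hub, hbU⟩ :=
    (TopologicalSpace.isBasis_countableBasis X).exists_subset_of_mem_open hu hU
  rw [frequently_atTop]
  intro N
  have h2 := mem_iInter.mp hx (⟨b, hb⟩, N)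
  simp only [hO, mem_iUnion] at h2
  obtain ⟨n, hn, h3⟩ := h2
  exact ⟨n, hn, hbU h3⟩

end top

variable {E : Type*} [NormedAddCommGroup E] [NormedSpace ℝ E] [FiniteDimensional ℝ E]
  {M : Type*} [TopologicalSpace M] [T2Space M] [CompactSpace M] [ChartedSpace E M]
  [IsManifold 𝓘(ℝ, E) ∞ M]
  {E' : Type*} [NormedAddCommGroup E'] [NormedSpace ℝ E'] [FiniteDimensional ℝ E']
  {B : Type*} [TopologicalSpace B] [T2Space B] [CompactSpace B] [ChartedSpace E' B]
  [IsManifold 𝓘(ℝ, E') ∞ B]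

/-- the vertical space at `x` is the sum of its stable and its unstable part -/
def VSplitAt (E E' : Type*) [NormedAddCommGroup E] [NormedSpace ℝ E] [NormedAddCommGroup E']
    [NormedSpace ℝ E'] {M : Type*} [TopologicalSpace M] [ChartedSpace E M]
    {B : Type*} [TopologicalSpace B] [ChartedSpace E' B] (p : M → B)
    (Es Eu : ∀ x : M, Submodule ℝ (TangentSpace 𝓘(ℝ, E) x)) (x : M) : Prop :=
  ∀ v : TangentSpace 𝓘(ℝ, E) x, mfderiv 𝓘(ℝ, E) 𝓘(ℝ, E') p x v = 0 →
    ∃ s ∈ Es x, ∃ u ∈ Eu x, mfderiv 𝓘(ℝ, E) 𝓘(ℝ, E') p x s = 0 ∧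
      mfderiv 𝓘(ℝ, E) 𝓘(ℝ, E') p x u = 0 ∧ s + u = v

/-- the vertical space splits at the points of limit sets -/
theorem vsplitAt_omega (f : Diffeomorph 𝓘(ℝ, E) 𝓘(ℝ, E) M M 1)
    (Es Eu : ∀ x : M, Submodule ℝ (TangentSpace 𝓘(ℝ, E) x)) (hA : IsAnosov f Es Eu)
    (p : M → B) (hp : ContMDiff 𝓘(ℝ, E) 𝓘(ℝ, E') 1 p)
    (hps : ∀ x, Function.Surjective (mfderiv 𝓘(ℝ, E) 𝓘(ℝ, E') p x))
    (g : Diffeomorph 𝓘(ℝ, E') 𝓘(ℝ, E') B B 1) (hfg : ∀ x, p (f x) = g (p x)) (x y : M)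
    (hxy : ∀ U ∈ 𝓝 y, ∃ᶠ n : ℕ in atTop, f^[n] x ∈ U) : VSplitAt E E' p Es Eu y := by
  have hkerr : ∀ x, Module.finrank ℝ (LinearMap.ker (di E E' p x).toLinearMap) =
      Module.finrank ℝ E - Module.finrank ℝ E' := by
    intro x
    have h1 := LinearMap.finrank_range_add_finrank_ker (di E E' p x).toLinearMap
    have h2 : LinearMap.range (di E E' p x).toLinearMap = ⊤ := LinearMap.range_eq_top.mpr (hps x)
    rw [h2, finrank_top] at h1
    omega
  obtain ⟨m, e, he, hemb, hinj⟩ := exists_embedding_euclidean_of_compact (I := 𝓘(ℝ, E)) (M := M)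
  let _ : MetricSpace M := hemb.isEmbedding.comapMetricSpace e
  have he1 : ContMDiff 𝓘(ℝ, E) (𝓡 m) 1 e := he.of_le (by simp)
  obtain ⟨m', e', he', hemb', hinj'⟩ :=
    exists_embedding_euclidean_of_compact (I := 𝓘(ℝ, E')) (M := B)
  have he1' : ContMDiff 𝓘(ℝ, E') (𝓡 m') 1 e' := he'.of_le (by simp)
  have hh : ContMDiff 𝓘(ℝ, E) (𝓡 m') 1 (e' ∘ p) := he1'.comp hp
  have hdp : ∀ z v, dm E (e' ∘ p) z v = dm E' e' (p z) (di E E' p z v) := dm_comp_di e' he1' p hp
  have hker : ∀ z v, dm E (e' ∘ p) z v = 0 ↔ di E E' p z v = 0 := fun z v => by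
    rw [hdp]
    constructor
    · intro h0
      exact hinj' _ (h0.trans (map_zero _).symm)
    · intro h0
      rw [h0, map_zero]
  obtain ⟨K₀, hK₀, hkp⟩ := ker_unif e he1 (e' ∘ p) hh _ (fun x => by
    have h1 : LinearMap.ker (dm E (e' ∘ p) x).toLinearMap =
        LinearMap.ker (di E E' p x).toLinearMap := by
      ext v
      exact hker x v
    rw [h1, hkerr x])
  obtain ⟨C', a, b, Ls, Lu, hE⟩ := eanosov_of_isAnosov e he1 hinj f Es Eu hA
  obtain ⟨K, hK, hang⟩ := hE.angle he1 hinj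
  obtain ⟨R, hR, hRv⟩ : ∃ R > 0, ∀ x : M, ∀ v : E,
      ‖dm E (e' ∘ p) x v‖ ≤ R * ‖dm E e x v‖ := by
    apply exists_uniform_const
    · intro C C' x hCC' h v
      exact (h v).trans (mul_le_mul_of_nonneg_right hCC' (norm_nonneg _))
    · intro x₀
      obtain ⟨⟨C, hC, h1⟩, -⟩ := local_all e he1 hinj (e' ∘ p) hh x₀
      refine ⟨C * C, ?_⟩
      filter_upwards [h1] with x hx v
      obtain ⟨h2, h3⟩ := hx v
      calc _ ≤ C * ‖dm E (extChartAt 𝓘(ℝ, E) x₀) x v‖ := h3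
        _ ≤ C * (C * ‖dm E e x v‖) := mul_le_mul_of_nonneg_left h2 hC.le
        _ = _ := by ring
  have hc : ∀ (n : ℕ) x, p (f^[n] x) = g^[n] (p x) := by
    intro n
    induction n with
    | zero => intro x; rfl
    | succ n ih =>
      intro x
      rw [Function.iterate_succ_apply', hfg, ih, Function.iterate_succ_apply']
  have hginj : ∀ (n : ℕ) (w : B) (v : E'), dg E' (g^[n]) w v = 0 → v = 0 := by
    intro n w v hv
    have h1 := dg_inv (g.toHomeomorph^[n]) (g.toHomeomorph.symm^[n])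
      (iter_smooth g.toHomeomorph g.contMDiff n) (iter_smooth g.toHomeomorph.symm g.symm.contMDiff n)
      (iter_left g.toHomeomorph n) w v
    have h2 : dg E' (g.toHomeomorph^[n]) w v = 0 := hv
    rw [h2, map_zero] at h1
    exact h1.symm
  have hV : ∀ (n : ℕ) x v, dm E (e' ∘ p) (f.toHomeomorph^[n] x) (dg E (f.toHomeomorph^[n]) x v) = 0 ↔
      dm E (e' ∘ p) x v = 0 := by
    intro n x v
    rw [hker, hker]
    have h1 := di_sq p hp (f^[n]) (iter_smooth f hE.smooth n) (g^[n])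
      (iter_smooth g g.contMDiff n) (hc n) x v
    constructor
    · intro h2
      have h3 : di E E' p (f^[n] x) (dg E (f^[n]) x v) = 0 := h2
      rw [h1] at h3
      exact hginj n _ _ h3
    · intro h2
      have h3 : di E E' p (f^[n] x) (dg E (f^[n]) x v) = 0 := by rw [h1, h2, map_zero]
      exact h3
  intro v hv
  obtain ⟨s, hs, u, hu, hsu⟩ := hE.decomp y v
  have h1 : dm E (e' ∘ p) y (s + u) = 0 := (hker y _).mpr (by rw [hsu]; exact hv)
  have h2 := omega_split he1 hinj hE hang (by linarith) hR.le hh hRv hK₀.le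
    (fun x v => hkp x v) hV (x := x) (y := y) hxy hs hu h1
  refine ⟨s, hs, u, hu, (hker y s).mp h2, ?_, hsu⟩
  rw [map_add, h2, zero_add] at h1
  exact (hker y u).mp h1

/-- the vertical bundle of a transitive Anosov diffeomorphism splits -/
theorem vsplit_of_transitive [Nonempty M] (f : Diffeomorph 𝓘(ℝ, E) 𝓘(ℝ, E) M M 1)
    (Es Eu : ∀ x : M, Submodule ℝ (TangentSpace 𝓘(ℝ, E) x)) (hA : IsAnosov f Es Eu)
    (p : M → B) (hp : ContMDiff 𝓘(ℝ, E) 𝓘(ℝ, E') 1 p)
    (hps : ∀ x, Function.Surjective (mfderiv 𝓘(ℝ, E) 𝓘(ℝ, E') p x))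
    (g : Diffeomorph 𝓘(ℝ, E') 𝓘(ℝ, E') B B 1) (hfg : ∀ x, p (f x) = g (p x))
    (ht : TopTransitive f) : VSplit E E' p Es Eu := by
  have hmet : TopologicalSpace.MetrizableSpace M := by
    have h1 : SigmaCompactSpace M := inferInstance
    exact Manifold.metrizableSpace 𝓘(ℝ, E) M
  let _ : MetricSpace M := TopologicalSpace.metrizableSpaceMetric M
  obtain ⟨x, hx⟩ := exists_omega_dense f.toHomeomorph ht
  intro y v hv
  refine vsplitAt_omega f Es Eu hA p hp hps g hfg x y (fun U hU => ?_) v hv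
  obtain ⟨V, hVU, hV, hyV⟩ := mem_nhds_iff.mp hU
  exact (hx V hV ⟨y, hyV⟩).mono fun n hn => hVU hn

/-- submersions of closed manifolds are surjective -/
theorem subm_surj [Nonempty M] [ConnectedSpace B] (p : M → B) (hp : ContMDiff 𝓘(ℝ, E) 𝓘(ℝ, E') 1 p)
    (hps : ∀ x, Function.Surjective (mfderiv 𝓘(ℝ, E) 𝓘(ℝ, E') p x)) : Function.Surjective p := by
  have h1 : IsOpen (range p) := (subm_open p hp hps).isOpen_range
  have h2 : IsClosed (range p) := (isCompact_range hp.continuous).isClosed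
  exact range_eq_univ.mp (IsClopen.eq_univ ⟨h2, h1⟩ (range_nonempty p))

end Pool.Agent.H66.Fib
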