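import Pool.Agent.H66.Fib.Act

/-!
# Orbits of normalised actions: asymptotic points
-/

set_option autoImplicit false
set_option linter.unusedSectionVars false

open scoped Manifold ContDiff Topology Bundle
open Set Filter Bundle

namespace Pool.Agent.H66.Fib

open Pool.Agent.H721R2 Pool.Agent.H789R2.AN Pool.Agent.TH289 Pool.Agent.W5h13.LS

section bound

variable {k : ℕ} {E : Type*} [NormedAddCommGroup E] [NormedSpace ℝ E]
  {M : Type*} [TopologicalSpace M] [ChartedSpace E M] [IsManifold 𝓘(ℝ, E) 1 M]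
  {F : Type*} [NormedAddCommGroup F] [NormedSpace ℝ F]

theorem IsAct.bound_loc {R : (Fin k → ℝ) → M → M} (h : IsAct E R) (e : M → F)
    (he : ContMDiff 𝓘(ℝ, E) 𝓘(ℝ, F) 1 e) (x₀ : M) :
    ∃ C : ℝ, ∀ᶠ x in 𝓝 x₀, ∀ v : Fin k → ℝ, ‖dm E e x (inf E R x v)‖ ≤ C * ‖v‖ := by
  set φ := extChartAt 𝓘(ℝ, E) x₀ with hφ
  set G : (Fin k → ℝ) × E → F := fun q => e (R q.1 (φ.symm q.2)) with hG
  have hGs : ContDiffAt ℝ 1 G (0, φ x₀) := by
    have h1 : ContMDiffAt 𝓘(ℝ, E) 𝓘(ℝ, E) 1 φ.symm (φ x₀) :=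
      (contMDiffOn_extChartAt_symm x₀).contMDiffAt
        ((isOpen_extChartAt_target x₀).mem_nhds (mem_extChartAt_target x₀))
    have h2 : ContMDiffAt (𝓘(ℝ, Fin k → ℝ).prod 𝓘(ℝ, E)) (𝓘(ℝ, Fin k → ℝ).prod 𝓘(ℝ, E)) 1
        (fun q : (Fin k → ℝ) × E => (q.1, φ.symm q.2)) (0, φ x₀) :=
      contMDiffAt_fst.prodMk (ContMDiffAt.comp (x := ((0 : Fin k → ℝ), φ x₀)) (g := φ.symm)
        (f := Prod.snd) h1 contMDiffAt_snd)
    have h3 := ContMDiffAt.comp ((0 : Fin k → ℝ), φ x₀)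
      (he.comp h.smooth).contMDiffAt h2
    rw [← modelWithCornersSelf_prod, chartedSpaceSelf_prod] at h3
    exact h3.contDiffAt
  have hc : ContinuousAt (fderiv ℝ G) (0, φ x₀) :=
    (hGs.fderiv_right (m := 0) (by norm_num)).continuousAt
  have hx0 : ContinuousAt (fun x : M => ((0 : Fin k → ℝ), φ x)) x₀ :=
    continuousAt_const.prodMk (continuousAt_extChartAt x₀)
  have hb : ∀ᶠ q in 𝓝 ((0 : Fin k → ℝ), φ x₀), ‖fderiv ℝ G q‖ < ‖fderiv ℝ G (0, φ x₀)‖ + 1 :=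
    hc.norm.eventually_lt continuousAt_const (by linarith)
  have hd : ∀ᶠ q in 𝓝 ((0 : Fin k → ℝ), φ x₀), DifferentiableAt ℝ G q :=
    (hGs.eventually (by simp)).mono fun q hq => hq.differentiableAt (by norm_num)
  refine ⟨‖fderiv ℝ G (0, φ x₀)‖ + 1, ?_⟩
  filter_upwards [hx0.eventually hb, hx0.eventually hd, extChartAt_source_mem_nhds (I := 𝓘(ℝ, E)) x₀]
    with x h1 h2 h3 v
  have h4 : (fun v => e (R v x)) = G ∘ fun v : Fin k → ℝ => (v, φ x) := by
    funext w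
    simp only [hG, Function.comp_apply]
    rw [φ.left_inv h3]
  have h5 : HasFDerivAt (fun v => e (R v x))
      ((fderiv ℝ G (0, φ x)).comp (ContinuousLinearMap.inl ℝ (Fin k → ℝ) E)) 0 := by
    rw [h4]
    exact h2.hasFDerivAt.comp (0 : Fin k → ℝ) (hasFDerivAt_prodMk_left _ _)
  have h6 := (h.hasFDerivAt e he x).unique h5
  have h7 : dm E e x (inf E R x v) =
      (fderiv ℝ G (0, φ x)) (ContinuousLinearMap.inl ℝ (Fin k → ℝ) E v) :=
    congrArg (fun A : (Fin k → ℝ) →L[ℝ] F => A v) h6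
  rw [h7]
  calc _ ≤ ‖fderiv ℝ G (0, φ x)‖ * ‖ContinuousLinearMap.inl ℝ (Fin k → ℝ) E v‖ :=
        ContinuousLinearMap.le_opNorm _ _
    _ = ‖fderiv ℝ G (0, φ x)‖ * ‖v‖ := by
        congr 1
        simp [Prod.norm_def]
    _ ≤ _ := mul_le_mul_of_nonneg_right h1.le (norm_nonneg v)

theorem IsAct.bound [CompactSpace M] {R : (Fin k → ℝ) → M → M} (h : IsAct E R) (e : M → F)
    (he : ContMDiff 𝓘(ℝ, E) 𝓘(ℝ, F) 1 e) :
    ∃ D : ℝ, 0 ≤ D ∧ ∀ x, ∀ v : Fin k → ℝ, ‖dm E e x (inf E R x v)‖ ≤ D * ‖v‖ := by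
  choose C hC using h.bound_loc e he
  obtain ⟨t, -, ht⟩ := (isCompact_univ (X := M)).elim_nhds_subcover
    (fun x₀ => {x | ∀ v : Fin k → ℝ, ‖dm E e x (inf E R x v)‖ ≤ C x₀ * ‖v‖})
    (fun x₀ _ => hC x₀)
  refine ⟨∑ x ∈ t, |C x|, by positivity, fun x v => ?_⟩
  have hx := ht (mem_univ x)
  simp only [mem_iUnion] at hx
  obtain ⟨x₀, hx₀, hx⟩ := hx
  refine (hx v).trans (mul_le_mul_of_nonneg_right ?_ (norm_nonneg v))
  exact (le_abs_self _).trans (Finset.single_le_sum (f := fun x => |C x|)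
    (fun i _ => abs_nonneg _) hx₀)

end bound

section orbit

variable {k : ℕ} {E : Type*} [NormedAddCommGroup E] [NormedSpace ℝ E]
  {M : Type*} [MetricSpace M] [CompactSpace M] [ChartedSpace E M] [IsManifold 𝓘(ℝ, E) 1 M]
  {F : Type*} [NormedAddCommGroup F] [NormedSpace ℝ F]

/-- stable directions of the action have stable orbits -/
theorem IsAct.asym {R : (Fin k → ℝ) → M → M} (h : IsAct E R) {e : M → F}
    (he : ContMDiff 𝓘(ℝ, E) 𝓘(ℝ, F) 1 e) (hiso : ∀ x y : M, dist x y = ‖e x - e y‖)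
    {f : M ≃ₜ M} {Es Eu : M → Submodule ℝ E} {C a b Ls Lu : ℝ}
    (hE : EAnosov e f Es Eu C a b Ls Lu) {v : Fin k → ℝ} (hv : ∀ y, inf E R y v ∈ Es y) (x : M) :
    Asym f x (R v x) := by
  obtain ⟨D, hD0, hD⟩ := h.bound e he
  rw [asym_iff]
  have hCpos := hE.C_pos
  have key : ∀ n : ℕ, dist (f^[n] x) (f^[n] (R v x)) ≤ C * a ^ n * (D * ‖v‖) := by
    intro n
    have hfn : ContMDiff 𝓘(ℝ, E) 𝓘(ℝ, E) 1 (f^[n]) := iter_smooth f hE.smooth n
    have hd : ∀ t : ℝ, HasDerivAt (fun t : ℝ => e (f^[n] (R (t • v) x)))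
        (dm E (e ∘ f^[n]) (R (t • v) x) (inf E R (R (t • v) x) v)) t := by
      intro t
      have h1 := h.hasFDerivAt (e ∘ f^[n]) (he.comp hfn) (R (t • v) x)
      have h2 : HasDerivAt (fun s : ℝ => (s - t) • v) v t := by
        have := ((hasDerivAt_id t).sub_const t).smul_const v
        simpa using this
      have h3 : HasFDerivAt (fun w => (e ∘ f^[n]) (R w (R (t • v) x)))
          ((dm E (e ∘ f^[n]) (R (t • v) x)).comp (inf E R (R (t • v) x))) ((t - t) • v) := by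
        rw [sub_self, zero_smul]
        exact h1
      have h4 := h3.comp_hasDerivAt t h2
      refine h4.congr_of_eventuallyEq (Eventually.of_forall fun s => ?_)
      simp only [Function.comp_apply]
      rw [← h.add, ← add_smul, sub_add_cancel]
    have hb : ∀ t : ℝ, ‖dm E (e ∘ f^[n]) (R (t • v) x) (inf E R (R (t • v) x) v)‖ ≤
        C * a ^ n * (D * ‖v‖) := by
      intro t
      rw [dm_comp e he (f^[n]) hfn]
      have h0 : 0 ≤ C * a ^ n := mul_nonneg (by linarith) (pow_nonneg hE.a_pos.le n)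
      exact (hE.hS n _ _ (hv _)).trans (mul_le_mul_of_nonneg_left (hD _ v) h0)
    have h1 := norm_image_sub_le_of_norm_deriv_le_segment_01'
      (f := fun t : ℝ => e (f^[n] (R (t • v) x)))
      (f' := fun t => dm E (e ∘ f^[n]) (R (t • v) x) (inf E R (R (t • v) x) v))
      (C := C * a ^ n * (D * ‖v‖))
      (fun t _ => (hd t).hasDerivWithinAt) (fun t _ => hb t)
    simp only [one_smul, zero_smul, h.zero] at h1
    rw [dist_comm, hiso]
    exact h1
  have ht : Tendsto (fun n : ℕ => C * a ^ n * (D * ‖v‖)) atTop (𝓝 0) := by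
    have := ((tendsto_pow_atTop_nhds_zero_of_lt_one hE.a_pos.le hE.a_lt).const_mul C).mul_const
      (D * ‖v‖)
    simpa using this
  exact squeeze_zero (fun n => dist_nonneg) key ht

end orbit

end Pool.Agent.H66.Fib
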